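import Pool.Agent.K6.H5.Rz.Defs

/-!
# Slaloms and the rapidity of the Raisonnier filters
-/

set_option autoImplicit false

namespace Pool.Agent.K6.H5.Rz

open Classical

/-- The splitting set `H(Y)` of a set of reals. -/
def splitting (Y : Set (ℕ → Bool)) : Set ℕ :=
  {n | ∃ x ∈ Y, ∃ y ∈ Y, (∀ m < n, x m = y m) ∧ x n ≠ y n}

/-- The Raisonnier filter of a set of reals. -/
def raisonnier (X : Set (ℕ → Bool)) : Set (Set ℕ) :=
  {A | ∃ Y : ℕ → Set (ℕ → Bool), X = ⋃ k, Y k ∧ ∀ k, splitting (Y k) ⊆ A}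

/-- Rapid filters (the functions `f` need not be strictly increasing). -/
def Rapid (F : Set (Set ℕ)) : Prop :=
  ∀ f : ℕ → ℕ, Monotone f → ∃ A ∈ F, ∀ n, (A ∩ {m | m < f n}).ncard ≤ n

/-- the reals `x` and `y` first differ at `c` -/
def FirstDiff (x y : ℕ → Prop) (c : ℕ) : Prop := (∀ m < c, (x m ↔ y m)) ∧ ¬ (x c ↔ y c)

theorem FirstDiff.unique {x y : ℕ → Prop} {c c' : ℕ} (h : FirstDiff x y c)
    (h' : FirstDiff x y c') : c = c' := by
  rcases lt_trichotomy c c' with h1 | h1 | h1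
  · exact absurd (h'.1 c h1) h.2
  · exact h1
  · exact absurd (h.1 c' h1) h'.2

theorem exists_cube (m : ℕ) : ∃ n, n ^ 3 ≤ m ∧ m < (n + 1) ^ 3 := by
  induction m with
  | zero => exact ⟨0, by norm_num, by norm_num⟩
  | succ m ih =>
    obtain ⟨n, h1, h2⟩ := ih
    by_cases h : m + 1 < (n + 1) ^ 3
    · exact ⟨n, by omega, h⟩
    · refine ⟨n + 1, by omega, ?_⟩
      have h3 : m + 1 = (n + 1) ^ 3 := by omega
      rw [h3]
      exact Nat.pow_lt_pow_left (Nat.lt_succ_self _) (by norm_num)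

theorem rapid_of_slalom {K : Type} (hK : AllSlalom K) (X : Set (ℕ → Bool))
    (x : K → ℕ → Bool) (hx : X ⊆ Set.range x) : Rapid (raisonnier X) := by
  intro f hf
  let F : ℕ → ℕ := fun n => f ((n + 1) ^ 3) + n
  have hF : StrictMono F := by
    intro n m h
    have h1 : f ((n + 1) ^ 3) ≤ f ((m + 1) ^ 3) :=
      hf (Nat.pow_le_pow_left (by omega) 3)
    show f ((n + 1) ^ 3) + n < f ((m + 1) ^ 3) + m
    omega
  obtain ⟨Y, hY⟩ := hK (fun k n => x k n = true) F
  let A : Set ℕ := {c | ∃ n, F n ≤ c ∧ c < F (n + 1) ∧ ∃ i < n + 1, ∃ i' < n + 1,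
    FirstDiff (Y (n + 1) i) (Y (n + 1) i') c}
  refine ⟨A, ?_, fun m => ?_⟩
  · -- the pieces
    let Z : ℕ → Set (ℕ → Bool) := fun k => {y | y ∈ X ∧
      (∀ n, (Nat.unpair k).1 ≤ n → ∃ i, i < n ∧ ∀ m, m < F n → (y m = true ↔ Y n i m)) ∧
      ∀ m, m < F (Nat.unpair k).1 → (y m = true ↔ Y (Nat.unpair k).1 (Nat.unpair k).2 m)}
    refine ⟨Z, ?_, fun k c hc => ?_⟩
    · ext y
      rw [Set.mem_iUnion]
      constructor
      · intro hy
        obtain ⟨k, rfl⟩ := hx hy
        obtain ⟨N, hN⟩ := hY k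
        obtain ⟨i, _, hi⟩ := hN N le_rfl
        refine ⟨Nat.pair N i, hy, ?_, ?_⟩
        · rw [Nat.unpair_pair]
          exact hN
        · rw [Nat.unpair_pair]
          exact hi
      · rintro ⟨k, hk, _⟩
        exact hk
    · obtain ⟨y, ⟨_, hy1, hy2⟩, z, ⟨_, hz1, hz2⟩, h1, h2⟩ := hc
      generalize (Nat.unpair k).1 = N at hy1 hy2 hz1 hz2
      generalize (Nat.unpair k).2 = j at hy2 hz2
      have h3 : F N ≤ c := by
        by_contra hcon
        push Not at hcon
        apply h2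
        rw [Bool.eq_iff_iff, hy2 c hcon, hz2 c hcon]
      have hex : ∃ n, c < F n := ⟨c + 1, (Nat.lt_succ_self c).trans_le (hF.id_le (c + 1))⟩
      have hn1 := Nat.find_spec hex
      have hn2 := fun m hm => Nat.find_min hex (m := m) hm
      generalize Nat.find hex = n' at hn1 hn2
      have hNn : N < n' := by
        by_contra hcon
        exact absurd (hn1.trans_le (hF.monotone (not_lt.1 hcon))) (not_lt.2 h3)
      obtain ⟨n, rfl⟩ : ∃ n, n' = n + 1 := ⟨n' - 1, by omega⟩
      obtain ⟨i, hi, hyi⟩ := hy1 (n + 1) hNn.le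
      obtain ⟨i', hi', hzi⟩ := hz1 (n + 1) hNn.le
      refine ⟨n, not_lt.1 (hn2 n (Nat.lt_succ_self n)), hn1, i, hi, i', hi', fun m hm => ?_, ?_⟩
      · rw [← hyi m (hm.trans hn1), ← hzi m (hm.trans hn1), h1 m hm]
      · rw [← hyi c hn1, ← hzi c hn1, ← Bool.eq_iff_iff]
        exact h2
  · obtain ⟨n, h1, h2⟩ := exists_cube m
    have h3 : f m ≤ F n := (hf h2.le).trans (Nat.le_add_right _ _)
    let g : ℕ × ℕ × ℕ → ℕ := fun p =>
      if h : ∃ c, FirstDiff (Y (p.1 + 1) p.2.1) (Y (p.1 + 1) p.2.2) c then h.choose else 0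
    have h4 : A ∩ {c | c < f m} ⊆
        ((Finset.range n ×ˢ (Finset.range n ×ˢ Finset.range n)).image g : Finset ℕ) := by
      rintro c ⟨⟨k, hk1, hk2, i, hi, i', hi', hd⟩, hc⟩
      have hkn : k < n := by
        by_contra hcon
        have h5 := hF.monotone (not_lt.1 hcon)
        have h6 : c < f m := hc
        omega
      rw [Finset.mem_coe, Finset.mem_image]
      refine ⟨(k, i, i'), ?_, ?_⟩
      · rw [Finset.mem_product, Finset.mem_product, Finset.mem_range, Finset.mem_range,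
          Finset.mem_range]
        exact ⟨hkn, by show i < n; omega, by show i' < n; omega⟩
      · have h5 : ∃ c, FirstDiff (Y (k + 1) i) (Y (k + 1) i') c := ⟨c, hd⟩
        show (if h : ∃ c, FirstDiff (Y (k + 1) i) (Y (k + 1) i') c then h.choose else 0) = c
        rw [dif_pos h5]
        exact h5.choose_spec.unique hd
    calc (A ∩ {c | c < f m}).ncard ≤
          (((Finset.range n ×ˢ (Finset.range n ×ˢ Finset.range n)).image g : Finset ℕ) :
            Set ℕ).ncard := Set.ncard_le_ncard h4 (Finset.finite_toSet _)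
      _ = ((Finset.range n ×ˢ (Finset.range n ×ˢ Finset.range n)).image g).card :=
          Set.ncard_coe_finset _
      _ ≤ (Finset.range n ×ˢ (Finset.range n ×ˢ Finset.range n)).card := Finset.card_image_le
      _ = n ^ 3 := by
          rw [Finset.card_product, Finset.card_product, Finset.card_range]
          ring
      _ ≤ m := h1

end Pool.Agent.K6.H5.Rz
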