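import Mathlib

/-!
# The iteration: conditions, and their order
-/

set_option autoImplicit false
set_option linter.unusedSectionVars false
set_option linter.unusedVariables false

namespace Pool.Agent.K6.H5.Rz

open Classical

/-- a level of the slalom: a bound, and a finite list of strings -/
abbrev Lv : Type := ℕ × List (List Bool)

/-- the part of a condition at one coordinate: finitely many levels of a slalom, and at most as
many promises -/
structure CV (K : Type) : Type where
  stem : List Lv
  pr : List K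
  hle : pr.length ≤ stem.length

variable {K I : Type}

theorem CV.ext' {v w : CV K} (h1 : v.stem = w.stem) (h2 : v.pr = w.pr) : v = w := by
  cases v
  cases w
  simp only at h1 h2
  subst h1 h2
  rfl

/-- the trivial part -/
def CV.top : CV K := ⟨[], [], le_rfl⟩

@[simp] theorem CV.top_stem : (CV.top : CV K).stem = [] := rfl
@[simp] theorem CV.top_pr : (CV.top : CV K).pr = [] := rfl

theorem CV.eq_top {v : CV K} (h : v.stem = []) : v = CV.top := by
  apply CV.ext' h
  have := v.hle
  rw [h] at this
  exact List.length_eq_zero_iff.1 (Nat.le_zero.1 this)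

/-- conditions -/
def Cond (K I : Type) : Type := {f : I → CV K // {i | f i ≠ CV.top}.Finite}

instance : CoeFun (Cond K I) fun _ => I → CV K := ⟨Subtype.val⟩

theorem Cond.ext' {p q : Cond K I} (h : ∀ i, p i = q i) : p = q := Subtype.ext (funext h)

/-- the trivial condition -/
def Cond.one : Cond K I := ⟨fun _ => CV.top, by simp⟩

@[simp] theorem Cond.one_apply (i : I) : (Cond.one : Cond K I) i = CV.top := rfl

/-- `q` on `T`, and `p` elsewhere -/
noncomputable def mix (T : Set I) (q p : Cond K I) : Cond K I :=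
  ⟨fun i => if i ∈ T then q i else p i, (q.2.union p.2).subset (by
    intro i hi
    simp only [Set.mem_ofPred_eq] at hi
    by_cases h : i ∈ T
    · rw [if_pos h] at hi
      exact Or.inl hi
    · rw [if_neg h] at hi
      exact Or.inr hi)⟩

theorem mix_mem {T : Set I} (q p : Cond K I) {i : I} (h : i ∈ T) : mix T q p i = q i := if_pos h

theorem mix_notMem {T : Set I} (q p : Cond K I) {i : I} (h : i ∉ T) : mix T q p i = p i :=
  if_neg h

@[simp] theorem mix_self (T : Set I) (p : Cond K I) : mix T p p = p :=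
  Cond.ext' fun i => by
    by_cases h : i ∈ T
    · rw [mix_mem _ _ h]
    · rw [mix_notMem _ _ h]

/-- change of one coordinate -/
noncomputable def upd (p : Cond K I) (j : I) (v : CV K) : Cond K I :=
  ⟨fun i => if i = j then v else p i, (p.2.union (Set.finite_singleton j)).subset (by
    intro i hi
    by_cases h : i = j
    · exact Or.inr h
    · simp only [Set.mem_ofPred_eq, if_neg h] at hi
      exact Or.inl hi)⟩

@[simp] theorem upd_same (p : Cond K I) (j : I) (v : CV K) : upd p j v j = v := if_pos rfl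

theorem upd_of_ne (p : Cond K I) {i j : I} (v : CV K) (h : i ≠ j) : upd p j v i = p i := if_neg h

/-! ### Stems -/

/-- a bound of all levels -/
def len (s : List Lv) : ℕ := (s.map Prod.fst).sum

theorem len_prefix {s s' : List Lv} (h : s <+: s') : len s ≤ len s' := by
  obtain ⟨r, rfl⟩ := h
  rw [len, len, List.map_append, List.sum_append]
  exact Nat.le_add_right _ _

theorem le_len {s : List Lv} {k : ℕ} {l : Lv} (h : s[k]? = some l) : l.1 ≤ len s := by
  rw [len]
  exact List.le_sum_of_mem (List.mem_map_of_mem (List.mem_of_getElem? h))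

theorem get_prefix {s s' : List Lv} (h : s <+: s') {k : ℕ} {l : Lv} (hk : s[k]? = some l) :
    s'[k]? = some l := by
  obtain ⟨r, rfl⟩ := h
  rw [List.getElem?_append_left (List.getElem?_eq_some_iff.1 hk).1]
  exact hk

theorem get_prefix' {s s' : List Lv} (h : s <+: s') {k : ℕ} (hl : k < s.length) {l : Lv}
    (hk : s'[k]? = some l) : s[k]? = some l := by
  obtain ⟨r, rfl⟩ := h
  rwa [List.getElem?_append_left hl] at hk

/-- the first `b` bits -/
def str (ξ : ℕ → Bool) (b : ℕ) : List Bool := (List.range b).map ξ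

theorem str_congr {ξ ξ' : ℕ → Bool} {b : ℕ} (h : ∀ n < b, ξ n = ξ' n) : str ξ b = str ξ' b := by
  rw [str, str]
  exact List.map_congr_left fun n hn => h n (List.mem_range.1 hn)

/-- all the levels of `s'` from number `m` on contain `ξ` -/
def newOK (ξ : ℕ → Bool) (m : ℕ) (s' : List Lv) : Prop :=
  ∀ k, m ≤ k → ∀ l, s'[k]? = some l → str ξ l.1 ∈ l.2

theorem newOK_congr {ξ ξ' : ℕ → Bool} {m : ℕ} {s' : List Lv}
    (hξ : ∀ n < len s', ξ n = ξ' n) (h : newOK ξ m s') : newOK ξ' m s' := by
  intro k hk l hl
  rw [← str_congr fun n hn => hξ n (hn.trans_le (le_len hl))]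
  exact h k hk l hl

theorem newOK_trans {ξ : ℕ → Bool} {m : ℕ} {s' s'' : List Lv} (hs : s' <+: s'')
    (h1 : newOK ξ m s') (h2 : newOK ξ s'.length s'') : newOK ξ m s'' := by
  intro k hk l hl
  by_cases h : k < s'.length
  · exact h1 k hk l (get_prefix' hs h hl)
  · exact h2 k (not_lt.1 h) l hl

/-- the levels of `s'` from number `m` on are small -/
def small (m : ℕ) (s' : List Lv) : Prop := ∀ k, m ≤ k → ∀ l, s'[k]? = some l → l.2.length ≤ k

theorem small_trans {m : ℕ} {s' s'' : List Lv} (hs : s' <+: s'')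
    (h1 : small m s') (h2 : small s'.length s'') : small m s'' := by
  intro k hk l hl
  by_cases h : k < s'.length
  · exact h1 k hk l (get_prefix' hs h hl)
  · exact h2 k (not_lt.1 h) l hl

/-! ### Names and the order -/

/-- raw names for reals -/
abbrev Nm (K I : Type) : Type := ℕ → ℕ → Option (Cond K I)

/-- the condition `t` decides that the `n`-th bit of `x` is `b` -/
def Bit (R : Cond K I → Cond K I → Prop) (t : Cond K I) (x : Nm K I) (n : ℕ) (b : Bool) : Prop :=
  if b = true then ∃ m u, x n m = some u ∧ R t u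
  else ∀ t', R t' t → ∀ m u, x n m = some u → ¬ R t' u

/-- the bounds of the levels of `s'` from number `m` on are large enough: if the `k`-th section of
the set `a` is not empty then it contains a number up to the bound of the `k`-th level -/
def bigA (R : Cond K I → Cond K I → Prop) (a : Nm K I) (q : Cond K I) (m : ℕ)
    (s' : List Lv) : Prop :=
  ∀ k, m ≤ k → ∀ l, s'[k]? = some l → ∀ t, R t q → ∀ v, Bit R t a (Nat.pair k v) true →
    (∀ v' ≤ l.1, Bit R t a (Nat.pair k v') false) → False

/-- the requirement at one coordinate -/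
structure Req (R : Cond K I → Cond K I → Prop) (a : Nm K I) (e : K → Nm K I) (q : Cond K I)
    (v w : CV K) : Prop where
  pre : w.stem <+: v.stem
  sub : w.pr ⊆ v.pr
  sml : w.pr ≠ [] → small w.stem.length v.stem
  big : w.pr ≠ [] → bigA R a q w.stem.length v.stem
  ok : ∀ k ∈ w.pr, ∀ t, R t q → ∀ ξ : ℕ → Bool,
    (∀ n < len v.stem, Bit R t (e k) n (ξ n)) → newOK ξ w.stem.length v.stem

theorem get_none {s : List Lv} {k : ℕ} (hk : s.length ≤ k) {l : Lv} (h : s[k]? = some l) :
    False := absurd (List.getElem?_eq_some_iff.1 h).1 (not_lt.2 hk)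

theorem Req.of_stem {R : Cond K I → Cond K I → Prop} {a : Nm K I} {e : K → Nm K I}
    {q : Cond K I} {v w : CV K} (h1 : w.stem = v.stem) (h2 : w.pr ⊆ v.pr) : Req R a e q v w where
  pre := h1 ▸ List.prefix_refl _
  sub := h2
  sml _ k hk l hl := (get_none (h1 ▸ hk) hl).elim
  big _ k hk l hl := (get_none (h1 ▸ hk) hl).elim
  ok _ _ _ _ _ _ k hk l hl := (get_none (h1 ▸ hk) hl).elim

theorem ne_nil_of_subset {α : Type} {l l' : List α} (h : l ⊆ l') (hl : l ≠ []) : l' ≠ [] := by
  rintro rfl
  exact hl (List.subset_nil.1 h)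

theorem Req.trans {R : Cond K I → Cond K I → Prop} {a : Nm K I} {e : K → Nm K I}
    {q q' : Cond K I} {u v w : CV K} (h : ∀ t, R t q' → R t q) (h2 : Req R a e q v w)
    (h1 : Req R a e q' u v) : Req R a e q' u w where
  pre := h2.pre.trans h1.pre
  sub _ hk := h1.sub (h2.sub hk)
  sml hw := small_trans h1.pre (h2.sml hw) (h1.sml (ne_nil_of_subset h2.sub hw))
  big hw k hk l hl t ht := by
    by_cases hkl : k < v.stem.length
    · exact h2.big hw k hk l (get_prefix' h1.pre hkl hl) t (h t ht)
    · exact h1.big (ne_nil_of_subset h2.sub hw) k (not_lt.1 hkl) l hl t ht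
  ok k hk t ht ξ hξ := newOK_trans h1.pre
    (h2.ok k hk t (h t ht) ξ fun n hn => hξ n (hn.trans_le (len_prefix h1.pre)))
    (h1.ok k (h2.sub hk) t ht ξ hξ)

/-- more promises -/
theorem Req.more {R : Cond K I → Cond K I → Prop} {a : Nm K I} {e : K → Nm K I}
    {q : Cond K I} {v v' w : CV K} (h : Req R a e q v w) (h1 : v'.stem = v.stem)
    (h2 : v.pr ⊆ v'.pr) : Req R a e q v' w where
  pre := h1 ▸ h.pre
  sub _ hk := h2 (h.sub hk)
  sml := h1 ▸ h.sml
  big := h1 ▸ h.big
  ok := h1 ▸ h.ok

/-- the parameters of the iteration -/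
structure Par (K I : Type) where
  A : I → Nm K I
  e : I → K → Nm K I

variable [LinearOrder I] [WellFoundedLT I]

/-- the relation at the coordinate `j` -/
noncomputable def ext (Γ : Par K I) : I → Cond K I → Cond K I → Prop :=
  WellFounded.fix (wellFounded_lt (α := I)) fun j rec q p =>
    Req (fun q p => ∀ i, ∀ h : i < j, rec i h q p) (Γ.A j) (Γ.e j) q (q j) (p j)

/-- `q` is stronger than `p` on the coordinates in `T` -/
def le (Γ : Par K I) (T : Set I) (q p : Cond K I) : Prop := ∀ j ∈ T, ext Γ j q p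

variable {Γ : Par K I}

theorem ext_iff {j : I} {q p : Cond K I} :
    ext Γ j q p ↔ Req (le Γ (Set.Iio j)) (Γ.A j) (Γ.e j) q (q j) (p j) := by
  conv_lhs => rw [ext, WellFounded.fix_eq]
  rfl

theorem le_mono {S T : Set I} (h : S ⊆ T) {q p : Cond K I} (hqp : le Γ T q p) : le Γ S q p :=
  fun j hj => hqp j (h hj)

theorem ext_refl_trans (j : I) :
    (∀ p : Cond K I, ext Γ j p p) ∧
    ∀ r q p : Cond K I, le Γ (Set.Iio j) r q → ext Γ j r q → ext Γ j q p → ext Γ j r p := by
  induction j using WellFoundedLT.induction with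
  | ind j ih =>
    refine ⟨fun p => ?_, fun r q p hrq h1 h2 => ?_⟩
    · rw [ext_iff]
      exact Req.of_stem rfl fun _ h => h
    · have htrans : ∀ r q p : Cond K I, le Γ (Set.Iio j) r q → le Γ (Set.Iio j) q p →
          le Γ (Set.Iio j) r p := by
        intro r q p hrq hqp i hi
        exact (ih i hi).2 r q p (fun l hl => hrq l (lt_trans hl hi)) (hrq i hi) (hqp i hi)
      rw [ext_iff] at h1 h2 ⊢
      exact Req.trans (fun t ht => htrans t r q ht hrq) h2 h1

theorem ext_refl (j : I) (p : Cond K I) : ext Γ j p p := (ext_refl_trans j).1 p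

theorem le_refl' (T : Set I) (p : Cond K I) : le Γ T p p := fun j _ => ext_refl j p

theorem le_trans' {T : Set I} (hT : IsLowerSet T) {r q p : Cond K I} (h1 : le Γ T r q)
    (h2 : le Γ T q p) : le Γ T r p := fun j hj =>
  (ext_refl_trans j).2 r q p (fun i hi => h1 i (hT (le_of_lt hi) hj)) (h1 j hj) (h2 j hj)

theorem lower_Iio (j : I) : IsLowerSet (Set.Iio j) := isLowerSet_Iio j

theorem Req_congr {R : Cond K I → Cond K I → Prop} {a : Nm K I} {e : K → Nm K I}
    {q q' : Cond K I} {v w : CV K} (h : ∀ t, R t q' → R t q) (hr : Req R a e q v w) :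
    Req R a e q' v w :=
  ⟨hr.pre, hr.sub, hr.sml, fun hw k hk l hl t ht => hr.big hw k hk l hl t (h t ht),
    fun k hk t ht => hr.ok k hk t (h t ht)⟩

/-- the relation at `j` only depends on the coordinates up to `j` -/
theorem ext_congr (j : I) : ∀ {q q' p p' : Cond K I}, (∀ i ≤ j, q i = q' i) → (p j = p' j) →
    ext Γ j q p → ext Γ j q' p' := by
  induction j using WellFoundedLT.induction with
  | ind j ih =>
    intro q q' p p' hq hp h
    rw [ext_iff] at h ⊢
    rw [← hq j le_rfl, ← hp]
    refine Req_congr (fun t ht i hi => ?_) h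
    exact ih i hi (fun _ _ => rfl) (hq i (le_of_lt hi)).symm (ht i hi)

theorem le_congr {T : Set I} (hT : IsLowerSet T) {q q' p p' : Cond K I}
    (hq : ∀ i ∈ T, q i = q' i) (hp : ∀ i ∈ T, p i = p' i) (h : le Γ T q p) : le Γ T q' p' :=
  fun j hj => ext_congr j (fun i hi => hq i (hT hi hj)) (hp j hj) (h j hj)

theorem le_of_eq {T : Set I} (hT : IsLowerSet T) {q p : Cond K I} (h : ∀ i ∈ T, q i = p i) :
    le Γ T q p := le_congr hT (fun _ _ => rfl) h (le_refl' T q)

theorem ext_same_stem {j : I} {q p : Cond K I} (h1 : (p j).stem = (q j).stem)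
    (h2 : (p j).pr ⊆ (q j).pr) : ext Γ j q p := by
  rw [ext_iff]
  exact Req.of_stem h1 h2

theorem ext_top {j : I} {q p : Cond K I} (h : p j = CV.top) : ext Γ j q p := by
  rw [ext_iff, h]
  exact ⟨List.nil_prefix, List.nil_subset _, fun h => absurd rfl h, fun h => absurd rfl h,
    fun k hk => absurd hk List.not_mem_nil⟩

theorem ext_stem {j : I} {q p : Cond K I} (h : ext Γ j q p) : (p j).stem <+: (q j).stem := by
  rw [ext_iff] at h
  exact h.pre

theorem ext_pr {j : I} {q p : Cond K I} (h : ext Γ j q p) : (p j).pr ⊆ (q j).pr := by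
  rw [ext_iff] at h
  exact h.sub

/-- amalgamation -/
theorem mix_le {S T : Set I} (hS : IsLowerSet S) {q p : Cond K I} (h : le Γ S q p) :
    le Γ T (mix S q p) p := by
  intro j _
  by_cases hj : j ∈ S
  · exact ext_congr j (fun i hi => (mix_mem q p (hS hi hj)).symm) rfl (h j hj)
  · exact ext_same_stem (by rw [mix_notMem q p hj]) (by rw [mix_notMem q p hj]; exact fun _ h => h)

/-- replacement of the lower part -/
theorem mix_le_mix {S T : Set I} (hS : IsLowerSet S) (hT : IsLowerSet T) {t t' c e : Cond K I}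
    (ht : le Γ S t' t) (h : le Γ T (mix S t c) (mix S t e)) :
    le Γ T (mix S t' c) (mix S t' e) := by
  have h1 : le Γ T (mix S t' c) (mix S t c) := by
    have h2 : le Γ T (mix S t' (mix S t c)) (mix S t c) := by
      apply mix_le hS
      exact le_congr hS (fun _ _ => rfl) (fun i hi => (mix_mem t c hi).symm) ht
    refine le_congr hT (fun i _ => ?_) (fun _ _ => rfl) h2
    by_cases hi : i ∈ S
    · rw [mix_mem _ _ hi, mix_mem _ _ hi]
    · rw [mix_notMem _ _ hi, mix_notMem _ _ hi, mix_notMem _ _ hi]
  have h3 := le_trans' hT h1 h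
  intro j hj
  by_cases hjS : j ∈ S
  · exact ext_congr j (fun _ _ => rfl) (by rw [mix_mem _ _ hjS])
      (ext_congr j (fun i hi => (mix_mem t' c (hS hi hjS)).symm) rfl (ext_refl (Γ := Γ) j t'))
  · exact ext_congr j (fun _ _ => rfl) (by rw [mix_notMem _ _ hjS, mix_notMem _ _ hjS]) (h3 j hj)

theorem mix_mono {S T : Set I} (hS : IsLowerSet S) (hT : IsLowerSet T) {t t' c : Cond K I}
    (ht : le Γ S t' t) : le Γ T (mix S t' c) (mix S t c) := by
  have h2 : le Γ T (mix S t' (mix S t c)) (mix S t c) := by
    apply mix_le hS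
    exact le_congr hS (fun _ _ => rfl) (fun i hi => (mix_mem t c hi).symm) ht
  refine le_congr hT (fun i _ => ?_) (fun _ _ => rfl) h2
  by_cases hi : i ∈ S
  · rw [mix_mem _ _ hi, mix_mem _ _ hi]
  · rw [mix_notMem _ _ hi, mix_notMem _ _ hi, mix_notMem _ _ hi]

/-- the join of two parts -/
def cvJoin (v w : CV K) : CV K where
  stem := if w.stem = [] then v.stem else w.stem
  pr := (v.pr ++ w.pr).take (if w.stem = [] then v.stem else w.stem).length
  hle := List.length_take_le _ _

theorem cvJoin_top_left (w : CV K) : cvJoin CV.top w = w := by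
  by_cases h3 : w.stem = []
  · rw [CV.eq_top h3]
    rfl
  · apply CV.ext'
    · exact if_neg h3
    · show List.take _ _ = _
      rw [if_neg h3]
      exact List.take_of_length_le w.hle

theorem cvJoin_top_right (v : CV K) : cvJoin v CV.top = v := by
  have h : (cvJoin v CV.top).stem = v.stem := by
    simp [cvJoin]
  apply CV.ext' h
  show List.take (cvJoin v CV.top).stem.length _ = _
  rw [h, CV.top_pr, List.append_nil]
  exact List.take_of_length_le v.hle

/-- the join of two conditions whose stems are equal on the common part of their supports -/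
noncomputable def join (p q : Cond K I) : Cond K I :=
  ⟨fun i => cvJoin (p i) (q i),
    (p.2.union q.2).subset (by
      intro i hi
      by_contra hcon
      rw [Set.mem_union, not_or] at hcon
      simp only [Set.mem_ofPred_eq, not_not] at hcon
      apply hi
      obtain ⟨h1, h2⟩ := hcon
      show cvJoin (p.1 i) (q.1 i) = CV.top
      rw [h1, h2]
      rfl)⟩

/-- there is room for more promises -/
def roomy (v : CV K) : Prop := 2 * v.pr.length ≤ v.stem.length

theorem roomy_top : roomy (CV.top : CV K) := le_rfl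

theorem join_le {p q : Cond K I} {T : Set I} (hp : ∀ i, roomy (p i)) (hq : ∀ i, roomy (q i))
    (h : ∀ i, p i ≠ CV.top → q i ≠ CV.top → (p i).stem = (q i).stem) :
    le Γ T (join p q) p ∧ le Γ T (join p q) q := by
  have h1 : ∀ i, p i ≠ CV.top → q i ≠ CV.top →
      (cvJoin (p i) (q i)).stem = (q i).stem ∧ (cvJoin (p i) (q i)).pr = (p i).pr ++ (q i).pr := by
    intro i hi hi'
    have h2 : (q i).stem ≠ [] := fun h' => hi' (CV.eq_top h')
    refine ⟨if_neg h2, ?_⟩
    show List.take _ _ = _
    rw [if_neg h2]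
    apply List.take_of_length_le
    rw [List.length_append]
    have h3 := hp i
    have h4 := hq i
    rw [roomy, h i hi hi'] at h3
    rw [roomy] at h4
    omega
  have h2 : ∀ i, p i = CV.top → cvJoin (p i) (q i) = q i := by
    intro i hi
    rw [hi]
    exact cvJoin_top_left _
  have h3 : ∀ i, q i = CV.top → cvJoin (p i) (q i) = p i := by
    intro i hi
    rw [hi]
    exact cvJoin_top_right _
  constructor
  · intro j _
    by_cases hj : p j = CV.top
    · exact ext_top hj
    · have h4 : join p q j = cvJoin (p j) (q j) := rfl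
      by_cases hq : q j = CV.top
      · apply ext_same_stem
        · rw [h4, h3 j hq]
        · rw [h4, h3 j hq]
          exact fun _ h => h
      · obtain ⟨h5, h6⟩ := h1 j hj hq
        apply ext_same_stem
        · rw [h4, h5, h j hj hq]
        · rw [h4, h6]
          exact List.subset_append_left _ _
  · intro j _
    by_cases hj : q j = CV.top
    · exact ext_top hj
    · have h4 : join p q j = cvJoin (p j) (q j) := rfl
      by_cases hp : p j = CV.top
      · apply ext_same_stem
        · rw [h4, h2 j hp]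
        · rw [h4, h2 j hp]
          exact fun _ h => h
      · obtain ⟨h5, h6⟩ := h1 j hp hj
        apply ext_same_stem
        · rw [h4, h5]
        · rw [h4, h6]
          exact List.subset_append_right _ _

/-! ### Decision of bits -/

theorem Bit.mono {T : Set I} (hT : IsLowerSet T) {t t' : Cond K I} {x : Nm K I} {n : ℕ} {b : Bool}
    (h : Bit (le Γ T) t x n b) (ht : le Γ T t' t) : Bit (le Γ T) t' x n b := by
  rw [Bit] at h ⊢
  split_ifs at h ⊢ with hb
  · obtain ⟨m, u, h1, h2⟩ := h
    exact ⟨m, u, h1, le_trans' hT ht h2⟩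
  · exact fun t'' ht'' => h t'' (le_trans' hT ht'' ht)

theorem Bit.unique {T : Set I} {t : Cond K I} {x : Nm K I} {n : ℕ} {b b' : Bool}
    (h : Bit (le Γ T) t x n b) (h' : Bit (le Γ T) t x n b') : b = b' := by
  rw [Bit] at h h'
  split_ifs at h h' with hb hb'
  · rw [hb, hb']
  · obtain ⟨m, u, h1, h2⟩ := h
    exact absurd h2 (h' t (le_refl' T t) m u h1)
  · obtain ⟨m, u, h1, h2⟩ := h'
    exact absurd h2 (h t (le_refl' T t) m u h1)
  · rw [Bool.not_eq_true] at hb
    rename_i hb'
    rw [Bool.not_eq_true] at hb'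
    rw [hb, hb']

theorem Bit.dense {T : Set I} (t : Cond K I) (x : Nm K I) (n : ℕ) :
    ∃ t', le Γ T t' t ∧ ∃ b, Bit (le Γ T) t' x n b := by
  by_cases h : ∃ t', le Γ T t' t ∧ ∃ m u, x n m = some u ∧ le Γ T t' u
  · obtain ⟨t', ht', m, u, h1, h2⟩ := h
    exact ⟨t', ht', true, by rw [Bit, if_pos rfl]; exact ⟨m, u, h1, h2⟩⟩
  · refine ⟨t, le_refl' T t, false, ?_⟩
    rw [Bit, if_neg (by simp)]
    intro t' ht' m u hu hle
    exact h ⟨t', ht', m, u, hu, hle⟩

/-- the conditions used in the name are supported in `T` -/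
def Supp (T : Set I) (x : Nm K I) : Prop := ∀ n m u, x n m = some u → ∀ i ∉ T, u i = CV.top

theorem Supp.le_iff {S T : Set I} (hST : S ⊆ T) {x : Nm K I} (hx : Supp S x) {n m : ℕ}
    {u : Cond K I} (hu : x n m = some u) (t : Cond K I) : le Γ T t u ↔ le Γ S t u := by
  refine ⟨fun h => le_mono hST h, fun h j hj => ?_⟩
  by_cases hjS : j ∈ S
  · exact h j hjS
  · exact ext_top (hx n m u hu j hjS)

theorem Bit.iff_of_supp {S T : Set I} (hS : IsLowerSet S) (hST : S ⊆ T) {x : Nm K I}
    (hx : Supp S x) {t : Cond K I} {n : ℕ} {b : Bool} :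
    Bit (le Γ T) t x n b ↔ Bit (le Γ S) t x n b := by
  rw [Bit, Bit]
  split_ifs with hb
  · constructor
    · rintro ⟨m, u, hu, h⟩
      exact ⟨m, u, hu, (hx.le_iff hST hu t).1 h⟩
    · rintro ⟨m, u, hu, h⟩
      exact ⟨m, u, hu, (hx.le_iff hST hu t).2 h⟩
  · constructor
    · intro h t' ht' m u hu hle
      refine h (mix S t' t) (mix_le hS ht') m u hu ((hx.le_iff hST hu _).2 ?_)
      exact le_congr hS (fun i hi => (mix_mem t' t hi).symm) (fun _ _ => rfl) hle
    · intro h t' ht' m u hu hle
      exact h t' (le_mono hST ht') m u hu ((hx.le_iff hST hu t').1 hle)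

end Pool.Agent.K6.H5.Rz
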