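import Pool.Agent.K6.H5.Rz.PP

/-!
# The generic slaloms capture all reals of the earlier stages
-/

set_option autoImplicit false
set_option linter.unusedSectionVars false
set_option linter.unusedVariables false

namespace Pool.Agent.K6.H5.Rz

open Classical Pool.Agent.Helper669.Forcing

variable {K I : Type} [LinearOrder I] [WellFoundedLT I] {Γ : Par K I}

theorem stem_prefix {r q : PP Γ} (h : r ≤ q) (j : I) :
    (PP.toC (Γ := Γ) q j).stem <+: (PP.toC (Γ := Γ) r j).stem := ext_stem (h j (Set.mem_univ j))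

/-- the generic slalom: the `m`-th bit of the `i`-th string of the level number `n` -/
def genY (Γ : Par K I) (j : I) (n i m : ℕ) : Set (PP Γ) :=
  {r | ∃ l, (PP.toC (Γ := Γ) r j).stem[n]? = some l ∧ ∃ s, l.2[i]? = some s ∧ s[m]? = some true}

theorem down_genY (j : I) (n i m : ℕ) : Down (genY Γ j n i m) := by
  rintro p ⟨l, hl, h⟩ q hq
  exact ⟨l, get_prefix (stem_prefix hq j) hl, h⟩

theorem str_get {ξ : ℕ → Bool} {b m : ℕ} (h : m < b) : (str ξ b)[m]? = some (ξ m) := by
  rw [str, List.getElem?_map, List.getElem?_range h]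
  rfl

/-- the code of a function -/
def cd (f : ℕ → ℕ → Set (PP Γ)) (c : ℕ) : Set (PP Γ) := f (Nat.unpair c).1 (Nat.unpair c).2

theorem cd_pair (f : ℕ → ℕ → Set (PP Γ)) (n v : ℕ) : cd f (Nat.pair n v) = f n v := by
  rw [cd, Nat.unpair_pair]

theorem captured_gen {j : I} {f : ℕ → ℕ → Set (PP Γ)} (hrep : Rep Γ (Γ.A j) (cd f))
    (hs : Supp (Set.Iio j) (Γ.A j)) {q : PP Γ} (hq : q ∈ IsFun f) {x : ℕ → Set (PP Γ)} {k : K}
    (hk : Rep Γ (Γ.e j k) x) (hks : Supp (Set.Iio j) (Γ.e j k)) :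
    q ∈ InSlalomN f (genY Γ j) x := by
  have hlow := lower_Iio j
  refine mem_fex.2 fun r hr => ?_
  let r0 : Cond K I := r
  obtain ⟨t, ht, v, hv1, hv2, hv3⟩ := exists_levels (Γ := Γ) j ((r0 j).pr.length + 1) r0 (r0 j)
  let w : CV K := ⟨v.stem, k :: v.pr, by rw [List.length_cons, hv1]; exact hv2⟩
  let r1 : Cond K I := upd (mix (Set.Iio j) t r0) j w
  have hr1j : r1 j = w := upd_same _ _ _
  have hr1 : le Γ Set.univ r1 r0 := upd_mix_le (v := w) ht (hv3.more (v' := w) rfl (List.subset_cons_self _ _)) _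
  refine ⟨r1, hr1, v.stem.length, fun n => ?_⟩
  refine mem_fimp.2 fun q1 hq1 hNn => ⟨q1, le_rfl, ?_⟩
  have hNn' : v.stem.length ≤ n := hNn
  refine mem_fex.2 fun q2 hq2 => ?_
  let q20 : Cond K I := q2
  obtain ⟨t3, ht3, v3, -, hv32, hv33⟩ := exists_levels (Γ := Γ) j (n + 1) q20 (q20 j)
  let q3 : Cond K I := upd (mix (Set.Iio j) t3 q20) j v3
  have hq3j : q3 j = v3 := upd_same _ _ _
  have hq3 : le Γ Set.univ q3 q20 := upd_mix_le ht3 hv33 _
  obtain ⟨l, hl⟩ : ∃ l, v3.stem[n]? = some l := ⟨_, List.getElem?_eq_getElem (by omega)⟩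
  obtain ⟨t4, ht4, hd⟩ := (ofRaw (Γ := Γ) (Γ.e j k) hlow).decide hlow hlow (Set.Subset.refl _)
    (len v3.stem) q3
  choose! ξ hξ using hd
  let q4 : Cond K I := mix (Set.Iio j) t4 q3
  have hq4 : le Γ Set.univ q4 q3 := mix_le hlow ht4
  have hq4t : le Γ (Set.Iio j) q4 t4 := le_of_eq hlow fun i hi => mix_mem _ _ hi
  have hq4j : q4 j = v3 := (mix_notMem _ _ (by simp)).trans hq3j
  have hξ4 : ∀ n < len v3.stem, Bit (le Γ (Set.Iio j)) q4 (Γ.e j k) n (ξ n) := fun n hn =>
    Bit.mono hlow (hξ n hn) hq4t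
  have hq42 : le Γ Set.univ q4 q20 := le_trans' isLowerSet_univ hq4 hq3
  have hq41 : le Γ Set.univ q4 r1 :=
    le_trans' isLowerSet_univ hq42 (le_trans' isLowerSet_univ hq2 hq1)
  have hreq : Req (le Γ (Set.Iio j)) (Γ.A j) (Γ.e j) q4 v3 w := by
    have := hq41 j (Set.mem_univ j)
    rwa [ext_iff, hq4j, hr1j] at this
  have hwne : w.pr ≠ [] := List.cons_ne_nil _ _
  have hmem : str ξ l.1 ∈ l.2 :=
    hreq.ok k List.mem_cons_self q4 (le_refl' _ _) ξ hξ4 n hNn' l hl
  obtain ⟨i, hi⟩ := List.mem_iff_getElem?.1 hmem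
  have hin : i < n := by
    have h1 : l.2.length ≤ n := hreq.sml hwne n hNn' l hl
    exact (List.getElem?_eq_some_iff.1 hi).1.trans_le h1
  refine ⟨q4, hq42, i, hin, fun m v' => ?_⟩
  refine mem_fimp.2 fun u hu hfu => ⟨u, le_rfl, ?_⟩
  refine mem_fimp.2 fun u' hu' hmv => ⟨u', le_rfl, ?_⟩
  have hmv' : m < v' := hmv
  have hfu' : u' ∈ meets (f n v') := down_meets _ _ hfu u' hu'
  have hu'4 : le Γ Set.univ u' q4 := le_trans' isLowerSet_univ hu' hu
  -- the bound is large enough
  have hvl : v' ≤ l.1 := by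
    by_contra hcon
    push Not at hcon
    obtain ⟨s, hs1, hs2⟩ := (ofRaw (Γ := Γ) (Γ.A j) (S := Set.univ) isLowerSet_univ).decide
      isLowerSet_univ isLowerSet_univ (Set.Subset.refl _)
      ((Finset.range (v' + 1)).sup (fun c => Nat.pair n c) + 1) u'
    have hpair : ∀ c ≤ v', Nat.pair n c < (Finset.range (v' + 1)).sup (fun c => Nat.pair n c) + 1 :=
      fun c hc => Nat.lt_succ_of_le
        (Finset.le_sup (f := fun c => Nat.pair n c) (Finset.mem_range.2 (Nat.lt_succ_of_le hc)))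
    have hs1' : le Γ Set.univ s u' := hs1
    have hsf : (s : PP Γ) ∈ meets (f n v') := down_meets _ _ hfu' s hs1'
    have hsq : (s : PP Γ) ∈ IsFun f := by
      refine down_IsFun f q hq s ?_
      exact le_trans' isLowerSet_univ hs1 (le_trans' isLowerSet_univ hu'4
        (le_trans' isLowerSet_univ hq41 (le_trans' isLowerSet_univ hr1 hr)))
    have hb : ∀ c ≤ v', Bit (le Γ Set.univ) s (Γ.A j) (Nat.pair n c) (decide (c = v')) := by
      intro c hc
      obtain ⟨b, hb⟩ := hs2 (Nat.pair n c) (hpair c hc)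
      have hb' : Bit (le Γ Set.univ) s (Γ.A j) (Nat.pair n c) b := hb
      have h1 := hrep.true_iff hb'
      rw [cd_pair] at h1
      by_cases hcv : c = v'
      · have h2 : b = true := h1.1 (hcv ▸ hsf)
        rw [h2] at hb'
        rwa [decide_eq_true hcv]
      · have h2 : b = false := by
          by_contra h3
          rw [Bool.not_eq_false] at h3
          exact hcv (IsFun.unique (P := PP Γ) hsq (h1.2 h3) hsf)
        rw [h2] at hb'
        rwa [decide_eq_false hcv]
    refine hreq.big hwne n hNn' l hl s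
      (le_mono (Set.subset_univ _) (le_trans' isLowerSet_univ hs1 hu'4)) v' ?_ fun c hc => ?_
    · have h1 := hb v' le_rfl
      rw [decide_eq_true rfl] at h1
      exact (Bit.iff_of_supp hlow (Set.subset_univ _) hs).1 h1
    · have h1 := hb c (hc.trans hcon.le)
      rw [decide_eq_false (by omega)] at h1
      exact (Bit.iff_of_supp hlow (Set.subset_univ _) hs).1 h1
  have hml : m < l.1 := hmv'.trans_le hvl
  have hmlen : m < len v3.stem := hml.trans_le (le_len hl)
  refine mem_fiff (fun s hsu => ⟨s, le_rfl, ?_⟩) (down_meets _) (down_meets _)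
  have hs4 : le Γ Set.univ s q4 := le_trans' isLowerSet_univ hsu hu'4
  have hbit : Bit (le Γ Set.univ) s (Γ.e j k) m (ξ m) :=
    Bit.mono isLowerSet_univ ((Bit.iff_of_supp hlow (Set.subset_univ _) hks).2 (hξ4 m hmlen)) hs4
  refine (hk.true_iff hbit).trans ?_
  have hp : v3.stem <+: (PP.toC (Γ := Γ) s j).stem := by
    have := stem_prefix (show s ≤ (q4 : PP Γ) from hs4) j
    rwa [show (PP.toC (Γ := Γ) q4 j).stem = v3.stem by rw [hq4j]] at this
  constructor
  · intro h8
    refine meets_of_mem ⟨l, get_prefix hp hl, str ξ l.1, hi, ?_⟩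
    rw [str_get hml, h8]
  · intro h8
    obtain ⟨s', hs', l', hl', str', hstr, hm⟩ := mem_meets_of_down (down_genY j n i m) h8
    have h9 := get_prefix (hp.trans (stem_prefix hs' j)) hl
    rw [h9] at hl'
    obtain rfl := Option.some.inj hl'
    rw [hi] at hstr
    obtain rfl := Option.some.inj hstr
    rw [str_get hml] at hm
    exact Option.some.inj hm

end Pool.Agent.K6.H5.Rz
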