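import Pool.Agent.Helper669.Forcing

/-!
# Rapid Raisonnier filters and dominating reals: the combinatorial sentence which is forced

Reals are subsets of `ℕ`, given by their characteristic functions. The sentence
`PhiHolds P K` of the forcing language is the literal translation of the conjunction of
`AllSlalom K` and of the statement that no function dominates all ground model functions:
quantifiers over sets and functions become quantifiers over names.
-/

set_option autoImplicit false

namespace Pool.Agent.K6.H5.Rz

open Pool.Agent.Helper669.Forcing

section Ambient

/-- For almost all `n`, the restriction of the real `x` to `f n` agrees with the restriction of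
one of the reals `Y n i`, for `i < n`. -/
def InSlalom (f : ℕ → ℕ) (Y : ℕ → ℕ → ℕ → Prop) (x : ℕ → Prop) : Prop :=
  ∃ N, ∀ n, N ≤ n → ∃ i, i < n ∧ ∀ m, m < f n → (x m ↔ Y n i m)

/-- For every family of reals indexed by `K` and every function `f` there is one slalom of
strings of the lengths `f n`, with at most `n` strings of length `f n`, which captures all members
of the family. -/
def AllSlalom (K : Type) : Prop :=
  ∀ (x : K → ℕ → Prop) (f : ℕ → ℕ), ∃ Y : ℕ → ℕ → ℕ → Prop, ∀ k, InSlalom f Y (x k)

end Ambient

section Names

variable {P : Type} [Preorder P]

/-- `φ if and only if ψ`. -/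
def fiff (φ ψ : Set P) : Set P := fand (fimp φ ψ) (fimp ψ φ)

/-- Forcing version of `InSlalom`; functions are given by names of their graphs. -/
def InSlalomN (f : ℕ → ℕ → Set P) (Y : ℕ → ℕ → ℕ → Set P) (x : ℕ → Set P) : Set P :=
  fex fun N => fall fun n => fimp (fground (N ≤ n)) (fex fun i => fand (fground (i < n))
    (fall fun m => fall fun v => fimp (meets (f n v)) (fimp (fground (m < v))
      (fiff (meets (x m)) (meets (Y n i m))))))

/-- Forcing version of `AllSlalom`. -/
def AllSlalomN (P : Type) [Preorder P] (K : Type) : Set P :=
  fall fun x : K → ℕ → Set P => fall fun f : ℕ → ℕ → Set P => fimp (IsFun f)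
    (fex fun Y : ℕ → ℕ → ℕ → Set P => fall fun k => InSlalomN f Y (x k))

/-- No function dominates all ground model functions: for every function `f` there is a ground
model function `g` with `f n < g n` for infinitely many `n`. -/
def NoDomN (P : Type) [Preorder P] : Set P :=
  fall fun f : ℕ → ℕ → Set P => fimp (IsFun f) (fex fun g : ℕ → ℕ => fall fun N => fex fun n =>
    fand (fground (N ≤ n)) (fex fun a => fand (meets (f n a)) (fground (a < g n))))

/-- The sentence of the forcing language. -/
def PhiHolds (P : Type) [Preorder P] (K : Type) : Set P := fand (NoDomN P) (AllSlalomN P K)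

end Names

end Pool.Agent.K6.H5.Rz
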