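import Pool.Agent.K6.H5.Rz.Capt

/-!
# The forcing theorem
-/

set_option autoImplicit false
set_option linter.unusedSectionVars false
set_option linter.deprecated false

namespace Pool.Agent.K6.H5.Rz

open Classical Cardinal Pool.Agent.Helper669.Forcing

variable {K I : Type} [LinearOrder I] [WellFoundedLT I] {Γ : Par K I}

theorem exists_supp [Infinite K] (hI : W684.FM.Bdd K I) {J : Type} (hJ : #J ≤ #K)
    (x : J → Nm K I) : ∃ δ, ∀ β, δ ≤ β → ∀ k, Supp (Set.Iio β) (x k) := by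
  obtain ⟨δ, hδ⟩ := hI (⋃ k, ⋃ n, ⋃ m, {i | ∃ u, x k n m = some u ∧ u i ≠ CV.top}) (by
    refine (Cardinal.mk_iUnion_le _).trans ?_
    calc #J * _ ≤ #K * ℵ₀ := by
          apply mul_le_mul' hJ
          apply ciSup_le'
          intro k
          rw [Cardinal.le_aleph0_iff_set_countable]
          apply Set.countable_iUnion
          intro n
          apply Set.countable_iUnion
          intro m
          rcases h : x k n m with _ | u
          · simp
          · refine (u.2.countable).mono ?_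
            rintro i ⟨v, hv, hvi⟩
            rw [Option.some_inj] at hv
            subst hv
            exact hvi
      _ ≤ #K := (Cardinal.mul_eq_left (Cardinal.aleph0_le_mk K) (Cardinal.aleph0_le_mk K)
          Cardinal.aleph0_ne_zero).le)
  refine ⟨δ, fun β hβ k n m u hu i hi => ?_⟩
  by_contra hcon
  apply hi
  refine (hδ i ?_).trans_le hβ
  rw [Set.mem_iUnion]
  refine ⟨k, ?_⟩
  rw [Set.mem_iUnion]
  refine ⟨n, ?_⟩
  rw [Set.mem_iUnion]
  exact ⟨m, u, hu, hcon⟩

theorem allSlalomN [Infinite K] (hΓ : Full Γ) (hI : W684.FM.Bdd K I)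
    (hA : ∀ (x : Nm K I) (β δ : I), Supp (Set.Iio δ) x → ∃ j, β ≤ j ∧ Γ.A j = x)
    (p : PP Γ) : p ∈ AllSlalomN (PP Γ) K := by
  intro x f
  refine mem_fimp.2 fun q _ hq => ⟨q, le_rfl, ?_⟩
  obtain ⟨a, ha⟩ := exists_raw_name (cd f)
  have ha' : Rep Γ a (cd f) := ha
  choose X hX using fun k => exists_raw_name (x k)
  obtain ⟨δ, hδ⟩ := exists_supp hI (J := Option K) (by
    rw [Cardinal.mk_option]
    calc #K + 1 ≤ #K + #K := add_le_add le_rfl
          (Cardinal.one_le_aleph0.trans (Cardinal.aleph0_le_mk K))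
      _ = #K := Cardinal.add_eq_self (Cardinal.aleph0_le_mk K)) fun k => k.elim a X
  obtain ⟨j, hj, hjA⟩ := hA a δ δ (hδ δ le_rfl none)
  have hrep : Rep Γ (Γ.A j) (cd f) := hjA ▸ ha'
  have hs : Supp (Set.Iio j) (Γ.A j) := hjA ▸ hδ j hj none
  refine mem_fex_of_mem (genY Γ j) (down_fall fun _ => down_InSlalomN _ _ _) fun k => ?_
  have hk : Supp (Set.Iio j) (X k) := hδ j hj (some k)
  obtain ⟨k', hk'⟩ := hΓ j (X k) hk
  have hXk : Rep Γ (X k) (x k) := hX k
  exact captured_gen hrep hs hq (hk' ▸ hXk) (hk' ▸ hk)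

/-- The combinatorial sentence is forced by all conditions of some preorder. -/
theorem exists_forcing : ∃ (P : Type) (_ : Preorder P), W684.FM.PCCC P ∧ Nonempty P ∧
    ∀ p : P, p ∈ PhiHolds P (ℕ → ℕ) := by
  have hc : #(ℕ → ℕ) = 𝔠 := by simp
  have hK : #(ℕ → ℕ) ^ ℵ₀ = #(ℕ → ℕ) := by
    rw [hc]
    exact Cardinal.continuum_power_aleph0
  obtain ⟨Γ, hΓ, hA⟩ := exists_par (ℕ → ℕ) hK
  have hI := W684.FM.bdd_succ (ℕ → ℕ)
  exact ⟨PP Γ, inferInstance, pccc, ⟨(Cond.one : Cond _ _)⟩, fun p =>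
    ⟨noDomN hΓ p, allSlalomN hΓ hI hA p⟩⟩

end Pool.Agent.K6.H5.Rz
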