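import Pool.Agent.K6.H5.Rz.Limit

/-!
# The induction along the iteration
-/

set_option autoImplicit false
set_option linter.unusedSectionVars false

namespace Pool.Agent.K6.H5.Rz

open Classical

variable {K I : Type} [LinearOrder I] [WellFoundedLT I] {Γ : Par K I} {S T : Set I} {X Y : Type}

theorem lower_induct {Pr : Set I → Prop}
    (h : ∀ T, IsLowerSet T → (∀ δ ∈ T, Pr (Set.Iio δ)) → Pr T) (T : Set I) (hT : IsLowerSet T) :
    Pr T := by
  have h1 : ∀ δ : I, Pr (Set.Iio δ) := by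
    intro δ
    induction δ using WellFoundedLT.induction with
    | ind δ ih => exact h _ (lower_Iio δ) ih
  exact h T hT fun δ _ => h1 δ

theorem lower_cases (hne : T.Nonempty) :
    (∃ δ ∈ T, ∀ i ∈ T, i ≤ δ) ∨ (∃ f : ℕ → I, (∀ n, f n ∈ T) ∧ ∀ i ∈ T, ∃ n, i < f n) ∨
      CB T := by
  by_cases h1 : ∃ δ ∈ T, ∀ i ∈ T, i ≤ δ
  · exact Or.inl h1
  by_cases h2 : CB T
  · exact Or.inr (Or.inr h2)
  right; left
  push Not at h1
  rw [CB] at h2
  push Not at h2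
  obtain ⟨C, hC, hCT, h3⟩ := h2
  obtain ⟨δ, hδ⟩ := hne
  obtain ⟨c, hc, _⟩ := h3 δ hδ
  obtain ⟨f, hf⟩ := hC.exists_eq_range ⟨c, hc⟩
  refine ⟨f, fun n => hCT (hf ▸ ⟨n, rfl⟩), fun i hi => ?_⟩
  obtain ⟨i', hi', hlt⟩ := h1 i hi
  obtain ⟨c', hc', hle⟩ := h3 i' hi'
  rw [hf] at hc'
  obtain ⟨n, rfl⟩ := hc'
  exact ⟨n, hlt.trans_le hle⟩

/-- the parameter `e` lists all names -/
def Full (Γ : Par K I) : Prop :=
  ∀ δ, ∀ x : Nm K I, Supp (Set.Iio δ) x → ∃ k, Γ.e δ k = x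

theorem exists_diff (hS : IsLowerSet S) (hST : S ⊆ T) (hne : S ≠ T) :
    ∃ δ ∈ T, S ⊆ Set.Iio δ := by
  obtain ⟨δ, hδ, h⟩ := Set.exists_of_ssubset (hST.ssubset_of_ne hne)
  refine ⟨δ, hδ, fun i hi => ?_⟩
  by_contra hcon
  exact h (hS (not_lt.1 hcon) hi)

theorem run_general (hΓ : Full Γ) (hS : IsLowerSet S) (hT : IsLowerSet T) (hST : S ⊆ T)
    (hne : S ≠ T) (hCB : ¬ CB T) (D : Task Γ T Y)
    (hTot : ∀ δ ∈ T, S ⊆ Set.Iio δ → Tot (Set.Iio δ) D)
    (hDA : ∀ δ ∈ T, S ⊆ Set.Iio δ → DA Γ S (Set.Iio δ)) : Run S D := by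
  obtain ⟨δ₀, hδ₀, hS₀⟩ := exists_diff hS hST hne
  rcases lower_cases ⟨δ₀, hδ₀⟩ with ⟨δ, hδ, hmax⟩ | ⟨f, hf, hcof⟩ | h
  · obtain rfl : T = Set.Iic δ := by
      ext i
      exact ⟨fun hi => hmax i hi, fun hi => hT hi hδ⟩
    have hSδ : S ⊆ Set.Iio δ := fun i hi => (hS₀ hi : i < δ₀).trans_le (hmax δ₀ hδ₀)
    refine run_of_steps hS hT D (fun _ => Set.Iio δ) (fun _ => lower_Iio δ) (fun _ => hSδ)
      (fun _ => Set.Iio_subset_Iic_self) (fun _ => Qs δ) ?_ ?_ ?_ ?_ (fun _ => hDA δ hδ hSδ)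
    · rintro _ i j hij r ⟨h1, h2⟩
      exact ⟨h1.trans hij, h2.trans hij⟩
    · rintro _ i r r' h ⟨h1, h2⟩
      have h3 := h δ hδ (by simp)
      rw [Qs, Set.mem_ofPred_eq, ← h3]
      exact ⟨h1, h2⟩
    · intro p
      exact ⟨0, max (Encodable.encode (p δ).stem) (p δ).pr.length, le_max_left _ _,
        le_max_right _ _⟩
    · intro _
      exact stepDense_succ (hTot δ hδ hSδ) (hΓ δ)
  · have hf' : ∀ n, max (f n) δ₀ ∈ T := fun n => by
      rcases max_choice (f n) δ₀ with h | h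
      · rw [h]
        exact hf n
      · rw [h]
        exact hδ₀
    have hS' : ∀ n, S ⊆ Set.Iio (max (f n) δ₀) := fun n i hi =>
      (hS₀ hi : i < δ₀).trans_le (le_max_right _ _)
    have hRT : ∀ n, Set.Iio (max (f n) δ₀) ⊆ T := fun n i hi => hT (le_of_lt hi) (hf' n)
    obtain ⟨E, hE0, hE⟩ := exists_tails D (fun n => Set.Iio (max (f n) δ₀))
      (fun n => lower_Iio _) hT (fun n => hTot _ (hf' n) (hS' n))
    refine run_of_steps hS hT D (fun n => Set.Iio (max (f n) δ₀)) (fun n => lower_Iio _) hS' hRT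
      (fun n => Ql T (Set.Iio (max (f n) δ₀)) E) ?_ ?_ ?_ hE (fun n => hDA _ (hf' n) (hS' n))
    · rintro n i j hij r ⟨l, hl, h1⟩
      exact ⟨l, hl.trans hij, h1⟩
    · rintro n i r r' h ⟨l, hl, h1⟩
      exact ⟨l, hl, fun j hj hj' => (h j hj hj').symm.trans (h1 j hj hj')⟩
    · intro p
      have h1 : ∀ s : Finset I, ∃ δ ∈ T, ∀ i ∈ s, i ∈ T → i ≤ δ := by
        intro s
        induction s using Finset.induction_on with
        | empty => exact ⟨δ₀, hδ₀, fun i hi => absurd hi (Finset.notMem_empty i)⟩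
        | insert a s _ ih =>
          obtain ⟨δ, hδ, h2⟩ := ih
          by_cases ha : a ∈ T
          · refine ⟨max a δ, ?_, fun i hi hiT => ?_⟩
            · rcases max_choice a δ with h | h
              · rw [h]
                exact ha
              · rw [h]
                exact hδ
            · rcases Finset.mem_insert.1 hi with rfl | hi
              · exact le_max_left _ _
              · exact (h2 i hi hiT).trans (le_max_right _ _)
          · refine ⟨δ, hδ, fun i hi hiT => ?_⟩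
            rcases Finset.mem_insert.1 hi with rfl | hi
            · exact absurd hiT ha
            · exact h2 i hi hiT
      obtain ⟨δ, hδ, h2⟩ := h1 p.2.toFinset
      obtain ⟨n, hn⟩ := hcof δ hδ
      refine ⟨n, 0, 0, le_rfl, fun l hl hl' => ?_⟩
      rw [hE0]
      by_contra hcon
      apply hl'
      have h3 := h2 l (p.2.mem_toFinset.2 hcon) hl
      exact (h3.trans_lt hn).trans_le (le_max_left _ _)
  · exact absurd h hCB

theorem BN.tot {R : Set I} (hR : IsLowerSet R) (hRT : R ⊆ T) (φ : BN Γ T) : Tot R φ.task := by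
  intro m r
  obtain ⟨q, hq, v, hv⟩ := φ.dense m r
  refine ⟨q, v, [q], le_mono hRT hq, fun c hc => ?_, fun _ t1 ht1 => ⟨t1, le_refl' _ t1, q,
    List.mem_singleton_self q, ?_⟩⟩
  · rw [List.mem_singleton.1 hc, mix_self]
    exact hq
  · exact φ.op m v q hv _ (mix_le hR ht1)

/-- the iteration does not add dominating functions, in a strong sense -/
theorem da (hΓ : Full Γ) (hS : IsLowerSet S) (T : Set I) (hT : IsLowerSet T) (hST : S ⊆ T) :
    DA Γ S T := by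
  revert hST
  refine lower_induct (Pr := fun T => S ⊆ T → DA Γ S T) ?_ T hT
  clear hT T
  intro T hT ih hST
  by_cases hne : S = T
  · subst hne
    intro φ
    obtain ⟨A, -, hA⟩ := exists_rec hS 0 (fun _ a a' => {t | t ∈ φ.U a a' ∧ a < a'})
      (fun _ a a' p hp q hq => ⟨φ.op _ _ p hp.1 q hq, hp.2⟩)
      (fun _ a p => by
        obtain ⟨q, hq, v, hv⟩ := φ.dense a p
        exact ⟨q, hq, max v (a + 1), φ.mono _ _ _ (le_max_left _ _) hv,
          (Nat.lt_succ_self a).trans_le (le_max_right _ _)⟩)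
    refine ⟨A, fun n p a a' h h' => (hA n p a a' h h').2, fun g _ p n0 => ?_⟩
    obtain ⟨q, hq, M, hM⟩ := g.dense n0 p
    obtain ⟨q', hq', hd⟩ := A.decide hS hS (Set.Subset.refl _) (M + 2) q
    choose! v hv using hd
    refine ⟨n0, le_rfl, q', le_trans' hS hq' hq, M, g.op _ _ q hM q' hq', fun l _ h2 => ?_⟩
    exact ⟨v l, v (l + 1), hv l (by omega), hv (l + 1) (by omega),
      (hA l q' _ _ (hv l (by omega)) (hv (l + 1) (by omega))).1⟩
  · obtain ⟨δ₀, hδ₀, hS₀⟩ := exists_diff hS hST hne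
    by_cases hCB : CB T
    · intro φ
      obtain ⟨δ, hδ, hlt, φ', hφ'⟩ := φ.reduce hCB hT hδ₀
      have hSδ : S ⊆ Set.Iio δ := fun i hi => (hS₀ hi : i < δ₀).trans hlt
      obtain ⟨A, hA, h1⟩ := ih δ hδ hSδ φ'
      refine ⟨A, hA, fun g _ p n0 => ?_⟩
      obtain ⟨κ, hκ, q, hq, M, hM, h2⟩ := h1 g () p n0
      have h3 : le Γ (Set.Iio δ) (mix (Set.Iio δ) q p) q :=
        le_of_eq (lower_Iio δ) fun i hi => mix_mem _ _ hi
      refine ⟨κ, hκ, mix (Set.Iio δ) q p, mix_le (lower_Iio δ) hq, M,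
        g.op _ _ q hM _ (le_mono hSδ h3), fun l hl hl' => ?_⟩
      obtain ⟨a, a', h4, h5, h6⟩ := h2 l hl hl'
      exact ⟨a, a', A.op _ _ q h4 _ (le_mono hSδ h3), A.op _ _ q h5 _ (le_mono hSδ h3),
        hφ' a a' (φ'.op _ _ q h6 _ h3)⟩
    · intro φ
      exact run_general hΓ hS hT hST hne hCB φ.task
        (fun δ hδ _ => φ.tot (lower_Iio δ) fun i hi => hT (le_of_lt hi) hδ)
        (fun δ hδ hSδ => ih δ hδ hSδ)

/-! ### New reals are not captured -/

/-- some block of the partition `B` contains no interval of the partition `A` on which `x`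
agrees with `y` -/
def Bad (T : Set I) (A B : VN Γ S ℕ) (x : ℕ → Bool → Set (Cond K I)) (y : VN Γ S Bool) (n0 : ℕ)
    (r : Cond K I) : Prop :=
  ∃ k, n0 ≤ k ∧ ∃ b b' κ a0, r ∈ B.val k b ∧ r ∈ B.val (k + 1) b' ∧ r ∈ A.val κ a0 ∧ a0 ≤ b ∧
    ∀ l, κ ≤ l → l ≤ b' → ∃ a a', r ∈ A.val l a ∧ r ∈ A.val (l + 1) a' ∧
      ∃ n, a ≤ n ∧ n < a' ∧ ∃ v, (∀ s, le Γ T s r → s ∉ x n v) ∧ r ∈ y.val n v

/-- the dichotomy for one name -/
def Dich (S T : Set I) (x : ℕ → Bool → Set (Cond K I)) (Γ : Par K I) (p : Cond K I) : Prop :=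
  (∃ q, le Γ T q p ∧ ∃ z : VN Γ S Bool, EqAt Γ T q x z.val) ∨
    ∃ q, le Γ T q p ∧ ∃ A : VN Γ S ℕ, Incr A ∧ ∀ B : VN Γ S ℕ, Incr B →
      ∀ (y : VN Γ S Bool) (n0 : ℕ) (r : Cond K I), le Γ T r q →
        ∃ r', le Γ T r' r ∧ Bad T A B x y n0 r'

theorem Dich.transfer {R : Set I} (hR : IsLowerSet R) (hT : IsLowerSet T)
    (hSR : S ⊆ R) (hRT : R ⊆ T) {x : VN Γ T Bool} {z : VN Γ R Bool} {p q : Cond K I}
    (hq : le Γ T q p) (hxz : EqAt Γ T q x.val z.val) (h : Dich S R z.val Γ q) :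
    Dich S T x.val Γ p := by
  rcases h with ⟨q1, hq1, w, hw⟩ | ⟨q1, hq1, A, hA, h⟩
  · left
    have h1 : le Γ T (mix R q1 q) q := mix_le hR hq1
    refine ⟨mix R q1 q, le_trans' hT h1 hq, w, ?_⟩
    have h2 : EqAt Γ T (mix R q1 q) z.val w.val := by
      intro q' hq' n v v' h3 h4
      refine hw q' ?_ n v v' h3 h4
      exact le_trans' hR (le_mono hRT hq') (le_of_eq hR fun i hi => mix_mem _ _ hi)
    exact EqAt.trans hT x.op (fun n a => (w.op n a).up (hSR.trans hRT))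
      (fun n p => z.dense_up hR n p) (hxz.mono hT h1) h2
  · right
    have h1 : le Γ T (mix R q1 q) q := mix_le hR hq1
    refine ⟨mix R q1 q, le_trans' hT h1 hq, A, hA, fun B hB y n0 r hr => ?_⟩
    have h2 : le Γ R r q1 :=
      le_trans' hR (le_mono hRT hr) (le_of_eq hR fun i hi => mix_mem _ _ hi)
    obtain ⟨r1, hr1, k, hk, b, b', κ, a0, h3, h4, h5, h6, h7⟩ := h B hB y n0 r h2
    have h8 : le Γ T (mix R r1 r) r := mix_le hR hr1
    have h9 : le Γ R (mix R r1 r) r1 := le_of_eq hR fun i hi => mix_mem _ _ hi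
    have h10 : le Γ S (mix R r1 r) r1 := le_mono hSR h9
    refine ⟨mix R r1 r, h8, k, hk, b, b', κ, a0, B.op _ _ _ h3 _ h10, B.op _ _ _ h4 _ h10,
      A.op _ _ _ h5 _ h10, h6, fun l hl hl' => ?_⟩
    obtain ⟨a, a', h11, h12, n, h13, h14, v, h15, h16⟩ := h7 l hl hl'
    refine ⟨a, a', A.op _ _ _ h11 _ h10, A.op _ _ _ h12 _ h10, n, h13, h14, v, ?_,
      y.op _ _ _ h16 _ h10⟩
    intro s hs hsx
    obtain ⟨s', hs', v', hv'⟩ := z.dense_up (T := T) hR n s
    have h17 : le Γ T s' q :=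
      le_trans' hT hs' (le_trans' hT hs (le_trans' hT h8 (le_trans' hT hr h1)))
    have h18 := hxz s' h17 n v v' (x.op n v s hsx s' hs') hv'
    subst h18
    exact h15 s' (le_trans' hR (le_mono hRT (le_trans' hT hs' hs)) h9) hv'

/-- the tasks for a real -/
def realTask (S : Set I) (hST : S ⊆ T) (hT : IsLowerSet T) (x : VN Γ T Bool) (p : Cond K I) :
    Task Γ T (VN Γ S Bool) where
  D m L y := {r | (∀ s, le Γ T s r → ¬ le Γ T s p) ∨
    ∃ n, m ≤ n ∧ n < L ∧ ∃ v, r ∈ x.val n (!v) ∧ r ∈ y.val n v}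
  op m L y := by
    rintro r (h | ⟨n, h1, h2, v, h3, h4⟩) r' hr'
    · exact Or.inl fun s hs => h s (le_trans' hT hs hr')
    · exact Or.inr ⟨n, h1, h2, v, x.op _ _ r h3 r' hr', y.op _ _ r h4 r' (le_mono hST hr')⟩
  mono m L L' y hL := by
    rintro r (h | ⟨n, h1, h2, v, h3⟩)
    · exact Or.inl h
    · exact Or.inr ⟨n, h1, h2.trans_le hL, v, h3⟩

theorem realTask_tot {R : Set I} (hS : IsLowerSet S) (hR : IsLowerSet R) (hT : IsLowerSet T)
    (hSR : S ⊆ R) (hRT : R ⊆ T) (x : VN Γ T Bool) (p : Cond K I)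
    (hnew : ¬ ∃ q, le Γ T q p ∧ ∃ z : VN Γ R Bool, EqAt Γ T q x.val z.val) :
    Tot R (realTask S (hSR.trans hRT) hT x p) := by
  intro m r
  by_cases hcomp : ∃ s, le Γ T s r ∧ le Γ T s p
  swap
  · refine ⟨r, m, [r], le_refl' _ r, fun c hc => ?_, fun y t1 ht1 => ⟨t1, le_refl' _ t1, r,
      List.mem_singleton_self r, ?_⟩⟩
    · rw [List.mem_singleton.1 hc, mix_self]
      exact le_refl' _ r
    · exact Or.inl fun s hs hsp => hcomp ⟨s, le_trans' hT hs (mix_le hR ht1), hsp⟩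
  obtain ⟨r1, hr1, hr1p⟩ := hcomp
  obtain ⟨r2, hr2, hd⟩ := x.decide hT hT (Set.Subset.refl _) m r1
  choose! v hv using hd
  have key : ∃ t, ∃ c c' : Cond K I, le Γ T (mix R t c) r2 ∧ le Γ T (mix R t c') r2 ∧
      ∃ n, m ≤ n ∧ ∃ v, mix R t c ∈ x.val n v ∧ mix R t c' ∈ x.val n (!v) := by
    by_contra hcon
    -- no two conditions with the same lower part decide a value differently
    have h1 : ∀ (t c c' : Cond K I), le Γ T (mix R t c) r2 → le Γ T (mix R t c') r2 →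
        ∀ n v v', mix R t c ∈ x.val n v → mix R t c' ∈ x.val n v' → v = v' := by
      intro t c c' h2 h3 n w w' h4 h5
      by_cases hn : n < m
      · rw [← x.uniq n _ _ _ (x.op _ _ r2 (hv n hn) _ h2) h4,
          ← x.uniq n _ _ _ (x.op _ _ r2 (hv n hn) _ h3) h5]
      · by_contra hne
        refine hcon ⟨t, c, c', h2, h3, n, not_lt.1 hn, w, h4, ?_⟩
        have : w' = !w := by
          revert hne
          cases w <;> cases w' <;> simp
        rwa [← this]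
    apply hnew
    let Z : ℕ → Bool → Set (Cond K I) := fun n w =>
      {t | (∃ c, le Γ T (mix R t c) r2 ∧ mix R t c ∈ x.val n w) ∨
        ((∀ t', le Γ R t' t → ¬ le Γ R t' r2) ∧ w = false)}
    have hop : ∀ n w, Op Γ R (Z n w) := by
      rintro n w t (⟨c, h2, h3⟩ | ⟨h2, h3⟩) t' ht'
      · have h4 : le Γ T (mix R t' c) (mix R t c) := mix_mono hR hT ht'
        exact Or.inl ⟨c, le_trans' hT h4 h2, x.op _ _ _ h3 _ h4⟩
      · exact Or.inr ⟨fun t'' ht'' => h2 t'' (le_trans' hR ht'' ht'), h3⟩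
    have hmix : ∀ t c, le Γ T (mix R t c) r2 → le Γ R t r2 := fun t c h =>
      le_congr hR (fun i hi => mix_mem _ _ hi) (fun _ _ => rfl) (le_mono hRT h)
    refine ⟨r2, le_trans' hT hr2 hr1p, ⟨Z, hop, ?_, ?_⟩, ?_⟩
    · rintro n t w w' (⟨c, h2, h3⟩ | ⟨h2, h3⟩) (⟨c', h4, h5⟩ | ⟨h4, h5⟩)
      · exact h1 t c c' h2 h4 n w w' h3 h5
      · exact absurd (hmix t c h2) (h4 t (le_refl' _ t))
      · exact absurd (hmix t c' h4) (h2 t (le_refl' _ t))
      · rw [h3, h5]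
    · intro n t
      by_cases h2 : ∃ t', le Γ R t' t ∧ le Γ R t' r2
      · obtain ⟨t', ht', ht'2⟩ := h2
        obtain ⟨q, hq, w, hw⟩ := x.dense n (mix R t' r2)
        have h3 : le Γ R q t' :=
          le_congr hR (fun _ _ => rfl) (fun i hi => mix_mem _ _ hi) (le_mono hRT hq)
        refine ⟨q, le_trans' hR h3 ht', w, Or.inl ⟨q, ?_, ?_⟩⟩
        · rw [mix_self]
          exact le_trans' hT hq (mix_le hR ht'2)
        · rw [mix_self]
          exact hw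
      · exact ⟨t, le_refl' _ t, false, Or.inr ⟨fun t' ht' ht'2 => h2 ⟨t', ht', ht'2⟩, rfl⟩⟩
    · rintro q' hq' n w w' h2 (⟨c, h3, h4⟩ | ⟨h3, h4⟩)
      · exact h1 q' q' c (by rwa [mix_self]) h3 n w w' (by rwa [mix_self]) h4
      · exact absurd (le_mono hRT hq') (h3 q' (le_refl' _ q'))
  obtain ⟨t, c, c', h1, h2, n, hn, w, h3, h4⟩ := key
  have hr2r : le Γ T r2 r := le_trans' hT hr2 hr1
  have htr : le Γ R t r := le_trans' hR (le_congr hR (fun i hi => mix_mem _ _ hi)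
    (fun _ _ => rfl) (le_mono hRT h1)) (le_mono hRT hr2r)
  refine ⟨t, n + 1, [c, c'], htr, ?_, ?_⟩
  · intro d hd
    rcases List.mem_cons.1 hd with rfl | hd
    · exact le_trans' hT h1 hr2r
    · rw [List.mem_singleton.1 hd]
      exact le_trans' hT h2 hr2r
  · intro y t1 ht1
    obtain ⟨t2, ht2, u, hu⟩ := y.dense_up (T := R) hS n t1
    have ht2t : le Γ R t2 t := le_trans' hR ht2 ht1
    have hmem : ∀ d, mix R t2 d ∈ y.val n u := fun d =>
      y.op n u t2 hu _ (le_mono hSR (le_of_eq hR fun i hi => mix_mem _ _ hi))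
    by_cases huw : u = w
    · refine ⟨t2, ht2, c', by simp, Or.inr ⟨n, hn, Nat.lt_succ_self n, u, ?_, hmem c'⟩⟩
      rw [huw]
      exact x.op _ _ _ h4 _ (mix_mono hR hT ht2t)
    · have hw : w = !u := by
        revert huw
        cases u <;> cases w <;> simp
      refine ⟨t2, ht2, c, by simp, Or.inr ⟨n, hn, Nat.lt_succ_self n, u, ?_, hmem c⟩⟩
      rw [← hw]
      exact x.op _ _ _ h3 _ (mix_mono hR hT ht2t)

/-- the dichotomy: a real of the extension is old, or it is not captured by old reals -/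
theorem dich (hΓ : Full Γ) (hS : IsLowerSet S) (T : Set I) (hT : IsLowerSet T) (hST : S ⊆ T) :
    ∀ (x : VN Γ T Bool) (p : Cond K I), Dich S T x.val Γ p := by
  revert hST
  refine lower_induct (Pr := fun T => S ⊆ T → ∀ (x : VN Γ T Bool) (p : Cond K I),
    Dich S T x.val Γ p) ?_ T hT
  clear hT T
  intro T hT ih hST x p
  by_cases hne : S = T
  · subst hne
    exact Or.inl ⟨p, le_refl' _ p, x, fun q _ n v v' h h' => x.uniq n q v v' h h'⟩
  obtain ⟨δ₀, hδ₀, hS₀⟩ := exists_diff hS hST hne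
  by_cases hCB : CB T
  · obtain ⟨δ, hδ, hlt, z, hz⟩ := x.reduce hCB hT hδ₀
    have hSδ : S ⊆ Set.Iio δ := fun i hi => (hS₀ hi : i < δ₀).trans hlt
    exact Dich.transfer (lower_Iio δ) hT hSδ (fun i hi => hT (le_of_lt hi) hδ)
      (le_refl' _ p) (fun q _ n v v' h h' => x.uniq n q v v' h (hz n v' h')) (ih δ hδ hSδ z p)
  by_cases hold : ∃ δ ∈ T, S ⊆ Set.Iio δ ∧
      ∃ q, le Γ T q p ∧ ∃ z : VN Γ (Set.Iio δ) Bool, EqAt Γ T q x.val z.val
  · obtain ⟨δ, hδ, hSδ, q, hq, z, hz⟩ := hold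
    exact Dich.transfer (lower_Iio δ) hT hSδ (fun i hi => hT (le_of_lt hi) hδ) hq hz
      (ih δ hδ hSδ z q)
  right
  obtain ⟨A, hA, hrun⟩ := run_general hΓ hS hT hST hne hCB (realTask S hST hT x p)
    (fun δ hδ hSδ => realTask_tot hS (lower_Iio δ) hT hSδ (fun i hi => hT (le_of_lt hi) hδ) x p
      fun h => hold ⟨δ, hδ, hSδ, h⟩)
    (fun δ hδ hSδ => da hΓ hS _ (lower_Iio δ) hSδ)
  refine ⟨p, le_refl' _ p, A, hA, fun B hB y n0 r hr => ?_⟩
  obtain ⟨κ, hκ, q, hq, M, ⟨w, hw, hM⟩, hl⟩ := hrun (B.shift.comp A hS) y r n0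
  obtain ⟨q', hq', b, hb⟩ := B.dense_up (T := T) hS w q
  have hq'S : le Γ S q' q := le_mono hST hq'
  have hwκ : κ ≤ w := hA.ge hS hw
  have hwb : w ≤ b := hB.ge hS hb
  refine ⟨q', le_trans' hT hq' hq, w, hκ.trans hwκ, b, M, κ, w, hb, B.op _ _ q hM q' hq'S,
    A.op _ _ q hw q' hq'S, hwb, fun l hl1 hl2 => ?_⟩
  obtain ⟨a, a', h1, h2, h3⟩ := hl l hl1 hl2
  refine ⟨a, a', A.op _ _ q h1 q' hq'S, A.op _ _ q h2 q' hq'S, ?_⟩
  rcases h3 with h3 | ⟨n, h4, h5, v, h6, h7⟩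
  · exact absurd (le_trans' hT hq hr) (h3 q (le_refl' _ q))
  · refine ⟨n, h4, h5, v, fun s hs hsx => ?_, y.op _ _ q h7 q' hq'S⟩
    have h8 := x.uniq n s _ _ (x.op _ _ q h6 s (le_trans' hT hs hq')) hsx
    revert h8
    cases v <;> simp

end Pool.Agent.K6.H5.Rz
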