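import Pool.Agent.K6.H5.Rz.Names

/-!
# More levels; room for more promises
-/

set_option autoImplicit false
set_option linter.unusedSectionVars false
set_option linter.unusedVariables false

namespace Pool.Agent.K6.H5.Rz

open Classical

variable {K I : Type} [LinearOrder I] [WellFoundedLT I] {Γ : Par K I}

theorem get_snoc {s : List Lv} {l l' : Lv} {k : ℕ} (hk : s.length ≤ k)
    (h : (s ++ [l])[k]? = some l') : k = s.length ∧ l' = l := by
  have h1 := (List.getElem?_eq_some_iff.1 h).1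
  rw [List.length_append, List.length_singleton] at h1
  have h2 : k = s.length := by omega
  subst h2
  rw [List.getElem?_concat_length] at h
  exact ⟨rfl, (Option.some.inj h).symm⟩

/-- decision of the bits of finitely many names -/
theorem decide_list {T : Set I} (hT : IsLowerSet T) (e : K → Nm K I) (b : ℕ) (F : List K)
    (t : Cond K I) : ∃ t', le Γ T t' t ∧ ∀ j ∈ F, ∀ n < b, ∃ v, Bit (le Γ T) t' (e j) n v := by
  induction F with
  | nil => exact ⟨t, le_refl' T t, fun j hj => absurd hj List.not_mem_nil⟩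
  | cons k F ih =>
    obtain ⟨t1, h1, h2⟩ := ih
    obtain ⟨t2, h3, h4⟩ := (ofRaw (Γ := Γ) (e k) hT).decide hT hT (Set.Subset.refl _) b t1
    refine ⟨t2, le_trans' hT h3 h1, fun j hj n hn => ?_⟩
    rcases List.mem_cons.1 hj with rfl | hj
    · exact h4 n hn
    · obtain ⟨v, hv⟩ := h2 j hj n hn
      exact ⟨v, hv.mono hT h3⟩

/-- one more level -/
theorem exists_level (δ : I) (t : Cond K I) (w : CV K) : ∃ t', le Γ (Set.Iio δ) t' t ∧
    ∃ v : CV K, v.pr = w.pr ∧ v.stem.length = w.stem.length + 1 ∧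
      Req (le Γ (Set.Iio δ)) (Γ.A δ) (Γ.e δ) t' v w := by
  have hlow := lower_Iio δ
  obtain ⟨t1, h1, b, hb⟩ : ∃ t1, le Γ (Set.Iio δ) t1 t ∧ ∃ b : ℕ, ∀ t2, le Γ (Set.Iio δ) t2 t1 →
      ∀ v, Bit (le Γ (Set.Iio δ)) t2 (Γ.A δ) (Nat.pair w.stem.length v) true →
      (∀ v' ≤ b, Bit (le Γ (Set.Iio δ)) t2 (Γ.A δ) (Nat.pair w.stem.length v') false) →
        False := by
    by_cases h : ∃ t1, le Γ (Set.Iio δ) t1 t ∧
        ∃ v, Bit (le Γ (Set.Iio δ)) t1 (Γ.A δ) (Nat.pair w.stem.length v) true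
    · obtain ⟨t1, h1, v, hv⟩ := h
      refine ⟨t1, h1, v, fun t2 h2 _ _ h3 => ?_⟩
      exact Bool.noConfusion ((hv.mono hlow h2).unique (h3 v le_rfl))
    · exact ⟨t, le_refl' _ t, 0, fun t2 h2 v hv _ => h ⟨t2, h2, v, hv⟩⟩
  obtain ⟨t2, h2, h3⟩ := decide_list (Γ := Γ) hlow (Γ.e δ) b w.pr t1
  choose! ξ hξ using h3
  refine ⟨t2, le_trans' hlow h2 h1,
    ⟨w.stem ++ [(b, w.pr.map fun j => str (ξ j) b)], w.pr, ?_⟩, rfl, ?_, ?_⟩
  · rw [List.length_append]
    exact w.hle.trans (Nat.le_add_right _ _)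
  · simp
  · refine ⟨List.prefix_append _ _, List.Subset.refl _, fun _ k hk l hl => ?_,
      fun _ k hk l hl t3 h3 v hv hv' => ?_, fun j hj t3 h3 ξ' hξ' k hk l hl => ?_⟩
    · obtain ⟨rfl, rfl⟩ := get_snoc hk hl
      rw [List.length_map]
      exact w.hle
    · obtain ⟨rfl, rfl⟩ := get_snoc hk hl
      exact hb t3 (le_trans' hlow h3 h2) v hv hv'
    · obtain ⟨rfl, rfl⟩ := get_snoc hk hl
      refine List.mem_map.2 ⟨j, hj, str_congr fun n hn => ?_⟩
      exact ((hξ j hj n hn).mono hlow h3).unique (hξ' n (hn.trans_le (le_len hl)))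

theorem Req.down {δ : I} {t t' : Cond K I} {v w : CV K}
    (h : Req (le Γ (Set.Iio δ)) (Γ.A δ) (Γ.e δ) t v w) (ht : le Γ (Set.Iio δ) t' t) :
    Req (le Γ (Set.Iio δ)) (Γ.A δ) (Γ.e δ) t' v w :=
  Req_congr (fun _ hu => le_trans' (lower_Iio δ) hu ht) h

theorem Req.comp {δ : I} {t t' : Cond K I} {u v w : CV K}
    (h : Req (le Γ (Set.Iio δ)) (Γ.A δ) (Γ.e δ) t v w) (ht : le Γ (Set.Iio δ) t' t)
    (h' : Req (le Γ (Set.Iio δ)) (Γ.A δ) (Γ.e δ) t' u v) :
    Req (le Γ (Set.Iio δ)) (Γ.A δ) (Γ.e δ) t' u w :=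
  Req.trans (fun _ hu => le_trans' (lower_Iio δ) hu ht) h h'

/-- many more levels -/
theorem exists_levels (δ : I) (n : ℕ) (t : Cond K I) (w : CV K) : ∃ t', le Γ (Set.Iio δ) t' t ∧
    ∃ v : CV K, v.pr = w.pr ∧ n ≤ v.stem.length ∧
      Req (le Γ (Set.Iio δ)) (Γ.A δ) (Γ.e δ) t' v w := by
  induction n with
  | zero => exact ⟨t, le_refl' _ t, w, rfl, Nat.zero_le _, Req.of_stem rfl fun _ h => h⟩
  | succ n ih =>
    obtain ⟨t1, h1, v1, h2, h3, h4⟩ := ih
    obtain ⟨t2, h5, v2, h6, h7, h8⟩ := exists_level (Γ := Γ) δ t1 v1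
    exact ⟨t2, le_trans' (lower_Iio δ) h5 h1, v2, h6.trans h2, by omega, h4.comp h5 h8⟩

/-- replacement of one coordinate -/
theorem upd_mix_le {δ : I} {t p : Cond K I} {v : CV K} (ht : le Γ (Set.Iio δ) t p)
    (hv : Req (le Γ (Set.Iio δ)) (Γ.A δ) (Γ.e δ) t v (p δ)) (T : Set I) :
    le Γ T (upd (mix (Set.Iio δ) t p) δ v) p := by
  intro i _
  have hlo : ∀ l, l < δ → t l = (upd (mix (Set.Iio δ) t p) δ v) l := by
    intro l hl
    rw [upd_of_ne _ _ (ne_of_lt hl), mix_mem _ _ (show l ∈ Set.Iio δ from hl)]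
  rcases lt_trichotomy i δ with h | rfl | h
  · exact ext_congr i (fun l hl => hlo l (hl.trans_lt h)) rfl (ht i h)
  · rw [ext_iff, upd_same]
    refine Req_congr (fun u hu => ?_) hv
    exact le_congr (lower_Iio i) (fun _ _ => rfl) (fun l hl => (hlo l hl).symm) hu
  · have h1 : (upd (mix (Set.Iio δ) t p) δ v) i = p i := by
      rw [upd_of_ne _ _ (ne_of_gt h), mix_notMem _ _ (by simp [h.le])]
    exact ext_same_stem (by rw [h1]) (by rw [h1]; exact fun _ h => h)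

theorem exists_roomy_at (δ : I) (p : Cond K I) : ∃ q, le Γ Set.univ q p ∧ roomy (q δ) ∧
    ∀ i, δ < i → q i = p i := by
  obtain ⟨t, h1, v, h2, h3, h4⟩ := exists_levels (Γ := Γ) δ (2 * (p δ).pr.length) p (p δ)
  refine ⟨upd (mix (Set.Iio δ) t p) δ v, upd_mix_le h1 h4 _, ?_, fun i hi => ?_⟩
  · rw [upd_same, roomy, h2]
    exact h3
  · rw [upd_of_ne _ _ (ne_of_gt hi), mix_notMem _ _ (by simp [hi.le])]

theorem exists_max {p : Cond K I} {Q : I → Prop} (h : ∃ i, Q i ∧ ¬ roomy (p i)) :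
    ∃ j, (Q j ∧ ¬ roomy (p j)) ∧ ∀ i, Q i → j < i → roomy (p i) := by
  have hfin : {i | Q i ∧ ¬ roomy (p i)}.Finite := p.2.subset (by
    rintro i ⟨_, hi⟩ hcon
    exact hi (by rw [hcon]; exact roomy_top))
  obtain ⟨j, hj, hmax⟩ := hfin.exists_maximalFor id _ h
  refine ⟨j, hj, fun i hi hji => ?_⟩
  by_contra hcon
  exact absurd (hmax ⟨hi, hcon⟩ hji.le) (not_le.2 hji)

theorem exists_roomy_lt (δ : I) : ∀ p : Cond K I, ∃ q, le Γ Set.univ q p ∧
    (∀ i < δ, roomy (q i)) ∧ ∀ i, δ ≤ i → q i = p i := by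
  induction δ using WellFoundedLT.induction with
  | ind δ ih =>
    intro p
    by_cases h : ∃ i, i < δ ∧ ¬ roomy (p i)
    · obtain ⟨j, ⟨hj, -⟩, hmax⟩ := exists_max (Q := fun i => i < δ) h
      obtain ⟨q, h1, h2, h3⟩ := exists_roomy_at (Γ := Γ) j p
      obtain ⟨r, h4, h5, h6⟩ := ih j hj q
      refine ⟨r, le_trans' isLowerSet_univ h4 h1, fun i hi => ?_, fun i hi => ?_⟩
      · rcases lt_trichotomy i j with h | rfl | h
        · exact h5 i h
        · rw [h6 i le_rfl]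
          exact h2
        · rw [h6 i h.le, h3 i h]
          exact hmax i hi h
      · rw [h6 i (hj.le.trans hi), h3 i (hj.trans_le hi)]
    · push Not at h
      exact ⟨p, le_refl' _ p, h, fun _ _ => rfl⟩

/-- there is a stronger condition with room at all coordinates -/
theorem exists_roomy (p : Cond K I) : ∃ q, le Γ Set.univ q p ∧ ∀ i, roomy (q i) := by
  by_cases h : ∃ i, True ∧ ¬ roomy (p i)
  · obtain ⟨j, -, hmax⟩ := exists_max (Q := fun _ => True) h
    obtain ⟨q, h1, h2, h3⟩ := exists_roomy_at (Γ := Γ) j p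
    obtain ⟨r, h4, h5, h6⟩ := exists_roomy_lt (Γ := Γ) j q
    refine ⟨r, le_trans' isLowerSet_univ h4 h1, fun i => ?_⟩
    rcases lt_trichotomy i j with h | rfl | h
    · exact h5 i h
    · rw [h6 i le_rfl]
      exact h2
    · rw [h6 i h.le, h3 i h]
      exact hmax i trivial h
  · push Not at h
    exact ⟨p, le_refl' _ p, fun i => h i trivial⟩

end Pool.Agent.K6.H5.Rz
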