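import Pool.Agent.K6.H5.Rz.Basic

/-!
# Names for functions, with respect to a lower set of coordinates
-/

set_option autoImplicit false
set_option linter.unusedSectionVars false

namespace Pool.Agent.K6.H5.Rz

open Classical

variable {K I : Type} [LinearOrder I] [WellFoundedLT I] {Γ : Par K I}

/-- open sets of conditions -/
def Op (Γ : Par K I) (T : Set I) (U : Set (Cond K I)) : Prop :=
  ∀ p ∈ U, ∀ q, le Γ T q p → q ∈ U

theorem Op.up {S T : Set I} (h : S ⊆ T) {U : Set (Cond K I)} (hU : Op Γ S U) : Op Γ T U :=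
  fun p hp q hq => hU p hp q (le_mono h hq)

/-- names for functions from `ℕ` to `X` -/
structure VN (Γ : Par K I) (T : Set I) (X : Type) where
  val : ℕ → X → Set (Cond K I)
  op : ∀ n a, Op Γ T (val n a)
  uniq : ∀ n p a a', p ∈ val n a → p ∈ val n a' → a = a'
  dense : ∀ n p, ∃ q, le Γ T q p ∧ ∃ a, q ∈ val n a

/-- names for upper bounds of a function -/
structure BN (Γ : Par K I) (T : Set I) where
  U : ℕ → ℕ → Set (Cond K I)
  op : ∀ m v, Op Γ T (U m v)
  mono : ∀ m v v', v ≤ v' → U m v ⊆ U m v'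
  dense : ∀ m p, ∃ q, le Γ T q p ∧ ∃ v, q ∈ U m v

variable {S T : Set I} {X : Type}

theorem dense_up {U : X → Set (Cond K I)} (hS : IsLowerSet S)
    (hU : ∀ a, Op Γ S (U a)) (h : ∀ p, ∃ q, le Γ S q p ∧ ∃ a, q ∈ U a) (p : Cond K I) :
    ∃ q, le Γ T q p ∧ ∃ a, q ∈ U a := by
  obtain ⟨q, hq, a, ha⟩ := h p
  refine ⟨mix S q p, mix_le hS hq, a, hU a q ha _ ?_⟩
  exact le_of_eq hS fun i hi => mix_mem q p hi

theorem VN.dense_up (x : VN Γ S X) (hS : IsLowerSet S) (n : ℕ) (p : Cond K I) :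
    ∃ q, le Γ T q p ∧ ∃ a, q ∈ x.val n a :=
  Rz.dense_up hS (x.op n) (x.dense n) p

theorem VN.decide (x : VN Γ S X) (hS : IsLowerSet S) (hT : IsLowerSet T) (hST : S ⊆ T) (N : ℕ)
    (p : Cond K I) : ∃ q, le Γ T q p ∧ ∀ n < N, ∃ a, q ∈ x.val n a := by
  induction N with
  | zero => exact ⟨p, le_refl' T p, fun n hn => absurd hn (Nat.not_lt_zero n)⟩
  | succ N ih =>
    obtain ⟨q, hq, h⟩ := ih
    obtain ⟨r, hr, a, ha⟩ := x.dense_up hS N q
    refine ⟨r, le_trans' hT hr hq, fun n hn => ?_⟩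
    rcases Nat.lt_succ_iff_lt_or_eq.1 hn with h' | rfl
    · obtain ⟨b, hb⟩ := h n h'
      exact ⟨b, x.op n b q hb r (le_mono hST hr)⟩
    · exact ⟨a, ha⟩

/-- names for strictly increasing functions -/
def Incr (A : VN Γ S ℕ) : Prop :=
  ∀ n p a a', p ∈ A.val n a → p ∈ A.val (n + 1) a' → a < a'

theorem Incr.lt {A : VN Γ S ℕ} (h : Incr A) (hS : IsLowerSet S) {l l' : ℕ} (hl : l < l')
    {p : Cond K I} {a a' : ℕ} (h1 : p ∈ A.val l a) (h2 : p ∈ A.val l' a') : a < a' := by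
  obtain ⟨q, hq, hd⟩ := A.decide hS hS (Set.Subset.refl S) (l' + 1) p
  choose! v hv using hd
  have hq1 := A.op _ _ p h1 q hq
  have hq2 := A.op _ _ p h2 q hq
  have key : ∀ m, l < m → m ≤ l' → a < v m := by
    intro m
    induction m with
    | zero => intro h; omega
    | succ m ih =>
      intro h3 h4
      have h5 := h m q _ _ (hv m (by omega)) (hv (m + 1) (by omega))
      rcases Nat.lt_succ_iff_lt_or_eq.1 h3 with h6 | h6
      · exact (ih h6 (by omega)).trans h5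
      · rw [A.uniq l q a (v m) hq1 (h6 ▸ hv m (by omega))]
        exact h5
  have h3 := key l' hl le_rfl
  rwa [A.uniq l' q (v l') a' (hv l' (by omega)) hq2] at h3

theorem Incr.le_of_le {A : VN Γ S ℕ} (h : Incr A) (hS : IsLowerSet S) {l l' : ℕ} (hl : l ≤ l')
    {p : Cond K I} {a a' : ℕ} (h1 : p ∈ A.val l a) (h2 : p ∈ A.val l' a') : a ≤ a' := by
  rcases hl.lt_or_eq with h3 | rfl
  · exact (h.lt hS h3 h1 h2).le
  · exact (A.uniq l p a a' h1 h2).le

theorem Incr.ge {A : VN Γ S ℕ} (h : Incr A) (hS : IsLowerSet S) {l : ℕ}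
    {p : Cond K I} {a : ℕ} (h1 : p ∈ A.val l a) : l ≤ a := by
  obtain ⟨q, hq, hd⟩ := A.decide hS hS (Set.Subset.refl S) (l + 1) p
  choose! v hv using hd
  have hq1 := A.op _ _ p h1 q hq
  have key : ∀ m, m ≤ l → m ≤ v m := by
    intro m
    induction m with
    | zero => intro h; omega
    | succ m ih =>
      intro h4
      have h5 := h m q _ _ (hv m (by omega)) (hv (m + 1) (by omega))
      have h6 := ih (by omega)
      omega
  have h3 := key l le_rfl
  rwa [A.uniq l q (v l) a (hv l (by omega)) hq1] at h3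

/-- dependent choice for names -/
def recVal (Γ : Par K I) (S : Set I) (a₀ : ℕ) (St : ℕ → ℕ → ℕ → Set (Cond K I)) :
    ℕ → ℕ → Set (Cond K I)
  | 0, a => {_p | a = a₀}
  | l + 1, a' => {p | ∃ a, p ∈ recVal Γ S a₀ St l a ∧ p ∈ St l a a' ∧
      ∀ q, le Γ S q p → ∀ v < a', q ∉ St l a v}

theorem exists_rec (hS : IsLowerSet S) (a₀ : ℕ) (St : ℕ → ℕ → ℕ → Set (Cond K I))
    (hop : ∀ l a a', Op Γ S (St l a a'))
    (hd : ∀ l a p, ∃ q, le Γ S q p ∧ ∃ a', q ∈ St l a a') :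
    ∃ A : VN Γ S ℕ, (∀ p, p ∈ A.val 0 a₀) ∧
      ∀ l p a a', p ∈ A.val l a → p ∈ A.val (l + 1) a' → p ∈ St l a a' := by
  have h1 : ∀ l a, Op Γ S (recVal Γ S a₀ St l a) := by
    intro l
    induction l with
    | zero => exact fun a p hp q _ => hp
    | succ l ih =>
      rintro a' p ⟨a, ha, h2, h3⟩ q hq
      exact ⟨a, ih a p ha q hq, hop _ _ _ p h2 q hq, fun r hr v hv => h3 r (le_trans' hS hr hq) v hv⟩
  have h2 : ∀ l p a a', p ∈ recVal Γ S a₀ St l a → p ∈ recVal Γ S a₀ St l a' → a = a' := by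
    intro l
    induction l with
    | zero => exact fun p a a' ha ha' => ha.trans ha'.symm
    | succ l ih =>
      rintro p a a' ⟨b, hb, h3, h4⟩ ⟨b', hb', h5, h6⟩
      obtain rfl := ih p b b' hb hb'
      rcases lt_trichotomy a a' with h | h | h
      · exact absurd h3 (h6 p (le_refl' S p) a h)
      · exact h
      · exact absurd h5 (h4 p (le_refl' S p) a' h)
  have h3 : ∀ l p, ∃ q, le Γ S q p ∧ ∃ a, q ∈ recVal Γ S a₀ St l a := by
    intro l
    induction l with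
    | zero => exact fun p => ⟨p, le_refl' S p, a₀, rfl⟩
    | succ l ih =>
      intro p
      obtain ⟨q, hq, a, ha⟩ := ih p
      have h4 : ∃ v, ∃ r, le Γ S r q ∧ r ∈ St l a v := by
        obtain ⟨r, hr, a', ha'⟩ := hd l a q
        exact ⟨a', r, hr, ha'⟩
      obtain ⟨r, hr, hr'⟩ := Nat.find_spec h4
      refine ⟨r, le_trans' hS hr hq, Nat.find h4, a, h1 l a q ha r hr, hr', ?_⟩
      intro s hs v hv hsv
      exact Nat.find_min h4 hv ⟨s, le_trans' hS hs hr, hsv⟩
  refine ⟨⟨recVal Γ S a₀ St, h1, fun n p a a' => h2 n p a a', h3⟩, fun p => rfl, ?_⟩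
  rintro l p a a' ha ⟨b, hb, h4, _⟩
  rwa [h2 l p a b ha hb]

/-- composition: the value of the name at `g n` -/
def VN.comp (A : VN Γ S X) (g : VN Γ S ℕ) (hS : IsLowerSet S) : VN Γ S X where
  val n v := {p | ∃ w, p ∈ g.val n w ∧ p ∈ A.val w v}
  op n v := by
    rintro p ⟨w, h1, h2⟩ q hq
    exact ⟨w, g.op _ _ p h1 q hq, A.op _ _ p h2 q hq⟩
  uniq n p a a' := by
    rintro ⟨w, h1, h2⟩ ⟨w', h1', h2'⟩
    obtain rfl := g.uniq n p w w' h1 h1'
    exact A.uniq w p a a' h2 h2'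
  dense n p := by
    obtain ⟨q, hq, w, hw⟩ := g.dense n p
    obtain ⟨r, hr, v, hv⟩ := A.dense w q
    exact ⟨r, le_trans' hS hr hq, v, w, g.op _ _ q hw r hr, hv⟩

/-- the shift of a name -/
def VN.shift (A : VN Γ S X) : VN Γ S X where
  val n := A.val (n + 1)
  op n := A.op (n + 1)
  uniq n := A.uniq (n + 1)
  dense n := A.dense (n + 1)

/-- the name for the characteristic function of a set -/
def ofSet (U : ℕ → Set (Cond K I)) (hU : ∀ n, Op Γ S (U n)) (hS : IsLowerSet S) :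
    VN Γ S Bool where
  val n b := if b = true then U n else {t | ∀ t', le Γ S t' t → t' ∉ U n}
  op n b := by
    intro p hp q hq
    by_cases hb : b = true
    · rw [if_pos hb] at hp ⊢
      exact hU n p hp q hq
    · rw [if_neg hb] at hp ⊢
      exact fun t ht => hp t (le_trans' hS ht hq)
  uniq n p a a' h h' := by
    rcases Bool.eq_false_or_eq_true a with rfl | rfl <;>
      rcases Bool.eq_false_or_eq_true a' with rfl | rfl
    · rfl
    · rw [if_pos rfl] at h
      rw [if_neg (by simp)] at h'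
      exact absurd h (h' p (le_refl' S p))
    · rw [if_pos rfl] at h'
      rw [if_neg (by simp)] at h
      exact absurd h' (h p (le_refl' S p))
    · rfl
  dense n p := by
    by_cases h : ∃ q, le Γ S q p ∧ q ∈ U n
    · obtain ⟨q, hq, h'⟩ := h
      exact ⟨q, hq, true, by rw [if_pos rfl]; exact h'⟩
    · refine ⟨p, le_refl' S p, false, ?_⟩
      rw [if_neg (by simp)]
      exact fun t ht h' => h ⟨t, ht, h'⟩

/-- the name for a real given by a raw name -/
def ofRaw (x : Nm K I) (hS : IsLowerSet S) : VN Γ S Bool where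
  val n b := {t | Bit (le Γ S) t x n b}
  op _ _ _ hp _ hq := Bit.mono hS hp hq
  uniq _ _ _ _ h h' := Bit.unique h h'
  dense n p := Bit.dense p x n

theorem mem_ofSet_true {U : ℕ → Set (Cond K I)} {hU : ∀ n, Op Γ S (U n)} {hS : IsLowerSet S}
    {n : ℕ} {p : Cond K I} : p ∈ (ofSet U hU hS).val n true ↔ p ∈ U n := Iff.rfl

theorem mem_ofSet_false {U : ℕ → Set (Cond K I)} {hU : ∀ n, Op Γ S (U n)} {hS : IsLowerSet S}
    {n : ℕ} {p : Cond K I} :
    p ∈ (ofSet U hU hS).val n false ↔ ∀ t', le Γ S t' p → t' ∉ U n := by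
  show p ∈ (if false = true then U n else {t | ∀ t', le Γ S t' t → t' ∉ U n}) ↔ _
  rw [if_neg (by simp)]
  rfl

theorem mem_ofRaw {x : Nm K I} {hS : IsLowerSet S} {n : ℕ} {b : Bool} {p : Cond K I} :
    p ∈ (ofRaw (Γ := Γ) x hS).val n b ↔ Bit (le Γ S) p x n b := Iff.rfl

theorem bit_true {x : Nm K I} {n : ℕ} {p : Cond K I} :
    Bit (le Γ S) p x n true ↔ ∃ m u, x n m = some u ∧ le Γ S p u := by
  rw [Bit, if_pos rfl]

theorem bit_false {x : Nm K I} {n : ℕ} {p : Cond K I} :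
    Bit (le Γ S) p x n false ↔ ∀ t', le Γ S t' p → ∀ m u, x n m = some u → ¬ le Γ S t' u := by
  rw [Bit, if_neg (by simp)]

/-- the condition `q` forces that the two names are equal -/
def EqAt (Γ : Par K I) (T : Set I) (q : Cond K I) (x z : ℕ → X → Set (Cond K I)) : Prop :=
  ∀ q', le Γ T q' q → ∀ n v v', q' ∈ x n v → q' ∈ z n v' → v = v'

theorem EqAt.symm {q : Cond K I} {x z : ℕ → X → Set (Cond K I)} (h : EqAt Γ T q x z) :
    EqAt Γ T q z x := fun q' hq' n v v' h1 h2 => (h q' hq' n v' v h2 h1).symm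

theorem EqAt.mono {q r : Cond K I} {x z : ℕ → X → Set (Cond K I)} (hT : IsLowerSet T)
    (h : EqAt Γ T q x z) (hr : le Γ T r q) : EqAt Γ T r x z :=
  fun q' hq' => h q' (le_trans' hT hq' hr)

theorem EqAt.trans {q : Cond K I} {x z w : ℕ → X → Set (Cond K I)}
    (hT : IsLowerSet T) (hx : ∀ n a, Op Γ T (x n a)) (hw : ∀ n a, Op Γ T (w n a))
    (hz : ∀ n p, ∃ q, le Γ T q p ∧ ∃ a, q ∈ z n a)
    (h : EqAt Γ T q x z) (h' : EqAt Γ T q z w) : EqAt Γ T q x w := by
  intro q' hq' n v v' h1 h2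
  obtain ⟨r, hr, a, ha⟩ := hz n q'
  have h3 := h r (le_trans' hT hr hq') n v a (hx n v q' h1 r hr) ha
  have h4 := h' r (le_trans' hT hr hq') n a v' ha (hw n v' q' h2 r hr)
  exact h3.trans h4

/-- open sets which are equal densely below `p` -/
theorem EqAt.up {q : Cond K I} {x z : ℕ → X → Set (Cond K I)}
    (hST : S ⊆ T) (h : EqAt Γ S q x z) : EqAt Γ T q x z :=
  fun q' hq' => h q' (le_mono hST hq')

end Pool.Agent.K6.H5.Rz
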