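import Pool.Agent.K6.H5.Rz.Book
import Pool.Agent.K6.H5.Rz.Defs

/-!
# The preorder of the conditions; names of the forcing language and raw names
-/

set_option autoImplicit false
set_option linter.unusedSectionVars false

namespace Pool.Agent.K6.H5.Rz

open Classical Pool.Agent.Helper669.Forcing

variable {K I : Type} [LinearOrder I] [WellFoundedLT I]

/-- the conditions, with the order given by the parameters -/
def PP (_Γ : Par K I) : Type := Cond K I

variable {Γ : Par K I}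

/-- an element of `PP Γ` as a condition -/
abbrev PP.toC (r : PP Γ) : Cond K I := r

noncomputable instance : Preorder (PP Γ) where
  le q p := le Γ Set.univ q p
  le_refl p := le_refl' Set.univ p
  le_trans _ _ _ h1 h2 := le_trans' isLowerSet_univ h1 h2

theorem PP.le_def {q p : PP Γ} : q ≤ p ↔ le Γ Set.univ q p := Iff.rfl

theorem pccc : W684.FM.PCCC (PP Γ) := by
  intro A hA
  by_contra hcon
  obtain ⟨p, hp, q, hq, hne, h⟩ := ccc (Γ := Γ) (T := Set.univ) A hcon
  exact hA p hp q hq hne h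

theorem op_of_down {U : Set (PP Γ)} (h : Down U) : Op Γ Set.univ U := h

theorem exists_raw_name (N : ℕ → Set (PP Γ)) : ∃ x : Nm K I,
    (∀ n p, Bit (le Γ Set.univ) p x n true → (p : PP Γ) ∈ meets (N n)) ∧
    (∀ n p, Bit (le Γ Set.univ) p x n false → ∀ q : PP Γ, q ≤ p → q ∉ meets (N n)) := by
  obtain ⟨x, -, hx⟩ := exists_raw (Γ := Γ) (S := Set.univ) isLowerSet_univ
    (fun n => (meets (N n) : Set (PP Γ))) (fun n => op_of_down (down_meets _))
  refine ⟨x, fun n p hp => ?_, fun n p hp q hq hqn => ?_⟩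
  · refine W684.FM.meets_of_dense (P := PP Γ) ?_
    intro q hq
    by_contra hcon
    have h1 : q ∈ (ofSet (Γ := Γ) (fun n => (meets (N n) : Set (PP Γ)))
        (fun n => op_of_down (down_meets _)) isLowerSet_univ).val n false :=
      mem_ofSet_false.2 fun r hr hrn => hcon ⟨r, hr, hrn⟩
    have h2 := hx q q (le_refl' _ q) n false true h1 (mem_ofRaw.2 (hp.mono isLowerSet_univ hq))
    exact Bool.false_ne_true h2
  · have h1 : q ∈ (ofSet (Γ := Γ) (fun n => (meets (N n) : Set (PP Γ)))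
        (fun n => op_of_down (down_meets _)) isLowerSet_univ).val n true := mem_ofSet_true.2 hqn
    have h2 := hx q q (le_refl' _ q) n true false h1 (mem_ofRaw.2 (hp.mono isLowerSet_univ hq))
    exact Bool.false_ne_true h2.symm

/-- a raw name represents a name -/
def Rep (Γ : Par K I) (x : Nm K I) (N : ℕ → Set (PP Γ)) : Prop :=
  (∀ n p, Bit (le Γ Set.univ) p x n true → (p : PP Γ) ∈ meets (N n)) ∧
    (∀ n p, Bit (le Γ Set.univ) p x n false → ∀ q : PP Γ, q ≤ p → q ∉ meets (N n))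

theorem Rep.true_iff {x : Nm K I} {N : ℕ → Set (PP Γ)} (h : Rep Γ x N) {n : ℕ} {b : Bool}
    {p : Cond K I} (hp : Bit (le Γ Set.univ) p x n b) : (p : PP Γ) ∈ meets (N n) ↔ b = true := by
  cases b with
  | true => exact ⟨fun _ => rfl, fun _ => h.1 n p hp⟩
  | false => exact ⟨fun h' => absurd h' (h.2 n p hp p (le_refl' _ p)), fun h' => absurd h' (by simp)⟩

theorem mem_meets_of_down {N : Set (PP Γ)} (hN : Down N) {p : PP Γ} (h : p ∈ meets N) :
    ∃ q, q ≤ p ∧ q ∈ N := by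
  obtain ⟨q, hq, h'⟩ := exists_of_meets hN h
  exact ⟨q, hq, h'⟩

theorem mem_fiff {φ ψ : Set (PP Γ)} {p : PP Γ} (h : ∀ q ≤ p, ∃ r ≤ q, (r ∈ φ ↔ r ∈ ψ))
    (hφ : Down φ) (hψ : Down ψ) : p ∈ fiff φ ψ := by
  refine ⟨mem_fimp.2 fun q hq hq' => ?_, mem_fimp.2 fun q hq hq' => ?_⟩
  · obtain ⟨r, hr, h1⟩ := h q hq
    exact ⟨r, hr, h1.1 (hφ q hq' r hr)⟩
  · obtain ⟨r, hr, h1⟩ := h q hq
    exact ⟨r, hr, h1.2 (hψ q hq' r hr)⟩

theorem down_fiff (φ ψ : Set (PP Γ)) : Down (fiff φ ψ) :=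
  down_fand (down_fimp _ _) (down_fimp _ _)

theorem down_InSlalomN (f : ℕ → ℕ → Set (PP Γ)) (Y : ℕ → ℕ → ℕ → Set (PP Γ))
    (x : ℕ → Set (PP Γ)) : Down (InSlalomN f Y x) := down_fex _

/-! ### No function dominates the ground model functions -/

theorem noDomN (hΓ : Full Γ) (p : PP Γ) : p ∈ NoDomN (PP Γ) := by
  intro f
  refine mem_fimp.2 fun q _ hf => ⟨q, le_rfl, ?_⟩
  -- the name of a bound for `f`
  let φ : BN Γ Set.univ :=
    { U := fun m v => {t : PP Γ | (∃ v' ≤ v, t ∈ meets (f m v')) ∨ ∀ s, s ≤ t → ¬ s ≤ q}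
      op := by
        rintro m v t (⟨v', hv, ht⟩ | ht) t' ht'
        · exact Or.inl ⟨v', hv, down_meets _ _ ht t' ht'⟩
        · exact Or.inr fun s hs => ht s (le_trans' isLowerSet_univ hs ht')
      mono := by
        rintro m v v' hv t (⟨w, hw, ht⟩ | ht)
        · exact Or.inl ⟨w, hw.trans hv, ht⟩
        · exact Or.inr ht
      dense := by
        intro m t
        by_cases h : ∃ s : PP Γ, le Γ Set.univ s t ∧ s ≤ q
        · obtain ⟨s, hs, hsq⟩ := h
          obtain ⟨s', hs', v, hv⟩ := IsFun.total (down_IsFun f q hf s hsq) m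
          exact ⟨s', le_trans' isLowerSet_univ hs' hs, v, Or.inl ⟨v, le_rfl, hv⟩⟩
        · exact ⟨t, le_refl' _ t, 0, Or.inr fun s hs hsq => h ⟨s, hs, hsq⟩⟩ }
  obtain ⟨A, hA, hrun⟩ := da hΓ (isLowerSet_empty) Set.univ isLowerSet_univ
    (Set.empty_subset _) φ
  have hA1 : ∀ l, ∃ a, ∀ t, t ∈ A.val l a := by
    intro l
    obtain ⟨t, _, a, ha⟩ := A.dense l Cond.one
    exact ⟨a, fun t' => A.op l a t ha t' fun j hj => absurd hj (Set.notMem_empty j)⟩
  choose a ha using hA1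
  have hmono : ∀ l, a l < a (l + 1) := fun l => hA l Cond.one _ _ (ha l _) (ha (l + 1) _)
  have hstrict : StrictMono a := strictMono_nat_of_lt_succ hmono
  obtain ⟨g₀, hkk⟩ : ∃ g : ℕ → ℕ, g = fun n =>
    if h : ∃ l, a l = n then a (h.choose + 1) + 1 else 0 := ⟨_, rfl⟩
  have hval : ∀ l, g₀ (a l) = a (l + 1) + 1 := by
    intro l
    rw [hkk]
    have h : ∃ l', a l' = a l := ⟨l, rfl⟩
    simp only
    rw [dif_pos h, hstrict.injective h.choose_spec]
  refine mem_fex_of_mem g₀ (down_fall fun _ => down_fex _) fun N => ?_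
  refine mem_fex.2 fun q' hq' => ?_
  let g : VN Γ ∅ ℕ :=
    { val := fun n v => {_t | v = n}
      op := fun _ _ _ h _ _ => h
      uniq := fun n p v v' h h' => h.trans h'.symm
      dense := fun n p => ⟨p, le_refl' _ p, n, rfl⟩ }
  obtain ⟨κ, hκ, r, hr, M, hM, hl⟩ := hrun g () q' N
  have hMκ : M = κ := hM
  obtain ⟨b, b', h1, h2, h3⟩ := hl κ le_rfl hMκ.ge
  have hb : b = a κ := A.uniq _ r _ _ h1 (ha κ r)
  have hb' : b' = a (κ + 1) := A.uniq _ r _ _ h2 (ha (κ + 1) r)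
  subst hb hb'
  rcases h3 with ⟨v', hv', h4⟩ | h4
  · refine ⟨r, hr, a κ, hκ.trans (hstrict.id_le κ), ?_⟩
    refine mem_fex_of_mem v' (down_fand (down_meets _) (down_fground _)) ⟨h4, ?_⟩
    show v' < g₀ (a κ)
    rw [hval]
    exact Nat.lt_succ_of_le hv'
  · exact absurd (le_trans' isLowerSet_univ hr hq') (h4 r (le_refl' _ r))

end Pool.Agent.K6.H5.Rz
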